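import Mathlib
import Pool.Agent.TH551.ZP.Fin
import Pool.Agent.TH551.HA.Defs
import Pool.Agent.TH551.HA.Abc

/-!
# The places and the counting functions
-/

set_option autoImplicit false

namespace Pool.Agent.Y731.GV

open Pool.Agent.TH551.SU Pool.Agent.TH551.SU.Ht Pool.Agent.TH551.HA

/-- a finitely generated group of rational numbers and finitely many primes together -/
theorem exists_baseS (Γ : Subgroup ℚˣ) (hΓ : Γ.FG) (S : Finset ℕ) :
    ∃ (s : ℕ) (b : Fin s → ℕ), (∀ v, (b v).Prime) ∧ Function.Injective b ∧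
      (∀ g ∈ Γ, IsSU b ((g : ℚˣ) : ℚ)) ∧ ∀ p ∈ S, p.Prime → ∃ v, b v = p := by
  classical
  obtain ⟨s, b, hb, hbi, hΓb⟩ := exists_base Γ hΓ
  set P : Finset ℕ := Finset.univ.image b ∪ S.filter Nat.Prime with hP
  have hPp : ∀ p ∈ P, p.Prime := by
    intro p hp
    rw [hP, Finset.mem_union] at hp
    rcases hp with hp | hp
    · obtain ⟨v, _, rfl⟩ := Finset.mem_image.1 hp
      exact hb v
    · exact (Finset.mem_filter.1 hp).2
  set b' : Fin P.card → ℕ := fun v => (P.equivFin.symm v : ℕ) with hb'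
  have hbp : ∀ v, (b' v).Prime := fun v => hPp _ (P.equivFin.symm v).2
  have hbP : ∀ p ∈ P, ∃ v, b' v = p := fun p hp => ⟨P.equivFin ⟨p, hp⟩, by simp [hb']⟩
  have hb0 : ∀ v, b' v ≠ 0 := fun v => (hbp v).ne_zero
  refine ⟨P.card, b', hbp, fun v w h => P.equivFin.symm.injective (Subtype.ext h), ?_, ?_⟩
  · intro g hg
    obtain ⟨σ, e, hσ, h⟩ := hΓb g hg
    rw [h]
    refine IsSU.mul hb0 ?_ ?_
    · rcases hσ with h1 | h1
      · rw [h1, Int.cast_one]
        exact Ht.IsSU.one b'
      · rw [h1, Int.cast_neg, Int.cast_one]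
        exact IsSU.neg (Ht.IsSU.one b')
    · refine Pool.Agent.TH551.ZP.Fin'.IsSU.prod' hb0 _ _ fun v _ =>
        Pool.Agent.TH551.ZP.Fin'.IsSU.zpow' hb0 ?_ _
      obtain ⟨v', hv'⟩ := hbP (b v) (by
        rw [hP, Finset.mem_union]
        exact Or.inl (Finset.mem_image_of_mem b (Finset.mem_univ v)))
      rw [← hv']
      exact IsSU.base b' v'
  · intro p hp hpp
    exact hbP p (by
      rw [hP, Finset.mem_union]
      exact Or.inr (Finset.mem_filter.2 ⟨hp, hpp⟩))

section

variable {s : ℕ} {b : Fin s → ℕ}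

/-- the part of a nonzero integer outside the places -/
noncomputable def outp (b : Fin s → ℕ) (z : ℤ) : ℝ := ∑ v, Real.log (av b v (z : ℚ))

lemma outp_mul (hb : ∀ v, (b v).Prime) {z w : ℤ} (hz : z ≠ 0) (hw : w ≠ 0) :
    outp b (z * w) = outp b z + outp b w := by
  unfold outp
  rw [← Finset.sum_add_distrib]
  refine Finset.sum_congr rfl fun v _ => ?_
  rw [Int.cast_mul, av_mul hb, Real.log_mul]
  · exact (av_pos hb v (by exact_mod_cast hz)).ne'
  · exact (av_pos hb v (by exact_mod_cast hw)).ne'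

lemma outp_one (hb : ∀ v, (b v).Prime) : outp b 1 = 0 := by
  unfold outp
  refine Finset.sum_eq_zero fun v _ => ?_
  rw [Int.cast_one, av_one hb, Real.log_one]

lemma outp_pow (hb : ∀ v, (b v).Prime) {z : ℤ} (hz : z ≠ 0) (n : ℕ) :
    outp b (z ^ n) = n * outp b z := by
  induction n with
  | zero => rw [pow_zero, outp_one hb]; simp
  | succ n ih =>
    rw [pow_succ, outp_mul hb (pow_ne_zero _ hz) hz, ih]
    push_cast
    ring

lemma outp_prod (hb : ∀ v, (b v).Prime) {ι : Type} (A : Finset ι) (z : ι → ℤ)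
    (hz : ∀ i ∈ A, z i ≠ 0) : outp b (∏ i ∈ A, z i) = ∑ i ∈ A, outp b (z i) := by
  classical
  induction A using Finset.induction_on with
  | empty => rw [Finset.prod_empty, Finset.sum_empty, outp_one hb]
  | insert a A ha ih =>
    rw [Finset.prod_insert ha, Finset.sum_insert ha, outp_mul hb (hz a (Finset.mem_insert_self _ _))
      (Finset.prod_ne_zero_iff.2 fun i hi => hz i (Finset.mem_insert_of_mem hi)),
      ih fun i hi => hz i (Finset.mem_insert_of_mem hi)]

lemma outp_natAbs (z : ℤ) : outp b (z.natAbs : ℤ) = outp b z := by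
  unfold outp
  refine Finset.sum_congr rfl fun v _ => ?_
  rcases Int.natAbs_eq z with h | h
  · rw [← h]
  · conv_rhs => rw [h]
    cases v with
    | none => simp only [av]; push_cast; rw [abs_neg]
    | some v => simp only [av]; push_cast; rw [padicNorm.neg]

/-- the part outside the places in terms of the factorisation -/
lemma outp_le (hb : ∀ v, (b v).Prime) (hbi : Function.Injective b) {z : ℤ} (hz : z ≠ 0)
    (S : Finset ℕ) (hS : ∀ p ∈ S, p.Prime → ∃ v, b v = p) :
    outp b z ≤ ∑ p ∈ z.natAbs.primeFactors \ S, (z.natAbs.factorization p : ℝ) * Real.log p := by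
  classical
  have hzn : z.natAbs ≠ 0 := Int.natAbs_ne_zero.2 hz
  have h1 : outp b z = Real.log (z.natAbs : ℝ) -
      ∑ v, (z.natAbs.factorization (b v) : ℝ) * Real.log (b v) := by
    rw [← outp_natAbs]
    unfold outp
    rw [Fintype.sum_option, sub_eq_add_neg, ← Finset.sum_neg_distrib]
    congr 1
    · simp only [av]
      rw [Int.cast_natCast, Rat.cast_natCast, abs_of_nonneg (Nat.cast_nonneg _)]
    · refine Finset.sum_congr rfl fun v _ => ?_
      have := Fact.mk (hb v)
      simp only [av]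
      have h5 : padicValRat (b v) (z.natAbs : ℚ) = ((z.natAbs.factorization (b v) : ℕ) : ℤ) := by
        rw [padicValRat.of_nat, Nat.factorization_def _ (hb v)]
      rw [Int.cast_natCast, padicNorm.eq_zpow_of_nonzero (by exact_mod_cast hzn), h5,
        Rat.cast_zpow, Real.log_zpow, Rat.cast_natCast, Int.cast_neg, Int.cast_natCast, neg_mul]
  rw [h1, Real.log_nat_eq_sum_factorization, Finsupp.sum, Nat.support_factorization]
  have h2 : ∑ p ∈ z.natAbs.primeFactors, (z.natAbs.factorization p : ℝ) * Real.log p =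
      ∑ p ∈ z.natAbs.primeFactors \ S, (z.natAbs.factorization p : ℝ) * Real.log p +
      ∑ p ∈ z.natAbs.primeFactors ∩ S, (z.natAbs.factorization p : ℝ) * Real.log p := by
    rw [add_comm, ← Finset.sum_union (Finset.disjoint_left.2 fun p hp hp' => by
      rw [Finset.mem_inter] at hp
      rw [Finset.mem_sdiff] at hp'
      exact hp'.2 hp.2)]
    congr 1
    ext p
    rw [Finset.mem_union, Finset.mem_inter, Finset.mem_sdiff]
    tauto
  have h3 : ∑ p ∈ z.natAbs.primeFactors ∩ S, (z.natAbs.factorization p : ℝ) * Real.log p ≤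
      ∑ v, (z.natAbs.factorization (b v) : ℝ) * Real.log (b v) := by
    have h4 : ∑ v, (z.natAbs.factorization (b v) : ℝ) * Real.log (b v) =
        ∑ p ∈ Finset.univ.image b, (z.natAbs.factorization p : ℝ) * Real.log p := by
      rw [Finset.sum_image fun v _ w _ h => hbi h]
    rw [h4]
    refine Finset.sum_le_sum_of_subset_of_nonneg ?_ fun p hp _ => ?_
    · intro p hp
      rw [Finset.mem_inter] at hp
      obtain ⟨v, hv⟩ := hS p hp.2 (Nat.prime_of_mem_primeFactors hp.1)
      exact Finset.mem_image.2 ⟨v, Finset.mem_univ _, hv⟩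
    · refine mul_nonneg (Nat.cast_nonneg _) (Real.log_nonneg ?_)
      obtain ⟨v, _, rfl⟩ := Finset.mem_image.1 hp
      exact_mod_cast (hb v).one_lt.le
  linarith

end

end Pool.Agent.Y731.GV
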