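import Mathlib
import Pool.Agent.Y731.GV.Alg

/-!
# Divisibility with factors shared by several components
-/

set_option autoImplicit false
set_option linter.unusedSectionVars false
set_option linter.unusedVariables false

namespace Pool.Agent.Y731.GV

open MvPolynomial
open Pool.Agent.TH551.HA.Ci (Cov GM exchange grad gradAt aeval_GM EI colW cov_prod aeval_mem bI)

section abs

variable {n g s N w p : ℕ} (f : Fin g → MvPolynomial (Fin n) ℚ)
  (F : Fin N → Fin w → MvPolynomial (Fin n) ℚ) {K : Type} [Field K] [Algebra ℚ K]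

/-- monomials -/
def mon (y : Fin p → K) (a : Fin p → ℕ) : K := ∏ l, y l ^ a l

lemma mon_mul (y : Fin p → K) (a b : Fin p → ℕ) :
    mon y a * mon y b = mon y (fun l => a l + b l) := by
  unfold mon
  rw [← Finset.prod_mul_distrib]
  exact Finset.prod_congr rfl fun l _ => (pow_add _ _ _).symm

lemma mon_mem (A : Subalgebra ℚ K) {y : Fin p → K} (hy : ∀ l, y l ∈ A) (a : Fin p → ℕ) :
    mon y a ∈ A := A.prod_mem fun l _ => A.pow_mem (hy l) _

/-- larger monomials are multiples -/
lemma mon_le (A : Subalgebra ℚ K) {y : Fin p → K} (hy : ∀ l, y l ∈ A) {a b : Fin p → ℕ}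
    (h : ∀ l, a l ≤ b l) : ∃ ω ∈ A, mon y b = mon y a * ω := by
  refine ⟨mon y (fun l => b l - a l), mon_mem A hy _, ?_⟩
  rw [mon_mul]
  congr 1
  funext l
  have := h l
  omega

/-- the exponents of the excess -/
def exc (ex : Fin N → Fin p → ℕ) (I : Finset (Fin N)) (l : Fin p) : ℕ := (∑ i ∈ I, ex i l) - 1

/-- sums over the columns of a cover -/
lemma cov_sum (φ : Fin n → Option (Fin s ⊕ Fin N)) (I : Finset (Fin N))
    (h : Cov φ (EI s I : Set (Fin s ⊕ Fin N))) (P : Fin N → ℕ) :
    ∑ c, (φ c).elim 0 (Sum.elim (fun _ => 0) P) = ∑ i ∈ I, P i := by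
  classical
  have h1 : ∀ c, (φ c).elim 0 (Sum.elim (fun _ => 0) P) =
      ∑ i ∈ I, (if φ c = some (Sum.inr i) then P i else 0) := by
    intro c
    rcases hc : φ c with _ | (j | i)
    · simp
    · simp
    · have hi : i ∈ I := by
        have h2 : Sum.inr i ∈ (EI s I : Set (Fin s ⊕ Fin N)) := (h.2 _).2 ⟨c, hc⟩
        simpa [EI] using h2
      simp only [Option.elim_some, Sum.elim_inr, Option.some.injEq, Sum.inr.injEq]
      rw [Finset.sum_ite_eq, if_pos hi]
  rw [Finset.sum_congr rfl fun c _ => h1 c, Finset.sum_comm]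
  refine Finset.sum_congr rfl fun i hi => ?_
  obtain ⟨c, hc⟩ := (h.2 (Sum.inr i)).1 (by simp [EI, hi])
  rw [Finset.sum_eq_single c]
  · rw [if_pos hc]
  · intro c' _ hc'
    rw [if_neg]
    intro h2
    exact hc' (h.1 _ _ _ h2 hc)
  · intro h2
    exact absurd (Finset.mem_univ _) h2

/-- a determinant whose columns are logarithmic derivatives -/
theorem detShare (A : Subalgebra ℚ K) (y : Fin p → K) (hy : ∀ l, y l ∈ A)
    (ex : Fin N → Fin p → ℕ) (I : Finset (Fin N)) (φ : Fin n → Option (Fin s ⊕ Fin N))
    (hφ : Cov φ (EI s I : Set (Fin s ⊕ Fin N))) (M : Matrix (Fin n) (Fin n) K)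
    (cc : Fin N → K) (hcc : ∀ i, cc i ∈ A) (Y' : Fin n → Fin p → K) (hY' : ∀ r l, Y' r l ∈ A)
    (C' : Fin n → Fin N → K) (hC' : ∀ r i, C' r i ∈ A)
    (hM : ∀ r c, (∀ i, φ c ≠ some (Sum.inr i)) → M r c ∈ A)
    (hMi : ∀ r c i, φ c = some (Sum.inr i) → M r c =
      ∑ l, (cc i * (ex i l : K) * mon y (fun l' => ex i l' - if l' = l then 1 else 0)) * Y' r l +
        mon y (ex i) * C' r i) :
    ∃ ω ∈ A, M.det = mon y (exc ex I) * ω := by
  classical
  -- the parts of the columns
  let γ : Fin n → Option (Fin p) → K := fun c o => match φ c, o with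
    | some (Sum.inr i), some l =>
        cc i * (ex i l : K) * mon y (fun l' => ex i l' - if l' = l then 1 else 0)
    | some (Sum.inr i), none => mon y (ex i)
    | _, some _ => 0
    | _, none => 1
  let U : Fin n → Option (Fin p) → Fin n → K := fun c o r => match φ c, o with
    | some (Sum.inr i), some l => Y' r l
    | some (Sum.inr i), none => C' r i
    | _, some _ => 0
    | _, none => M r c
  have hcol : ∀ c, (fun r => M r c) = ∑ o, γ c o • U c o := by
    intro c
    funext r
    rw [Finset.sum_apply, Fintype.sum_option]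
    rcases hc : φ c with _ | (j | i)
    · simp [γ, U, hc]
    · simp [γ, U, hc]
    · rw [hMi r c i hc, add_comm]
      simp [γ, U, hc]
  have hUA : ∀ c o r, U c o r ∈ A := by
    intro c o r
    rcases hc : φ c with _ | (j | i)
    · rcases o with _ | l
      · simpa [U, hc] using hM r c (fun i => by simp [hc])
      · simp [U, hc]
    · rcases o with _ | l
      · simpa [U, hc] using hM r c (fun i => by simp [hc])
      · simp [U, hc]
    · rcases o with _ | l
      · simpa [U, hc] using hC' r i
      · simpa [U, hc] using hY' r l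
  have hexp : M.det = ∑ χ : Fin n → Option (Fin p),
      Matrix.det (Matrix.of fun c => γ c (χ c) • U c (χ c)) := by
    rw [← Matrix.det_transpose]
    have h1 : M.transpose = fun c => ∑ o, γ c o • U c o := by
      funext c
      exact hcol c
    rw [h1]
    exact (Matrix.detRowAlternating (n := Fin n) (R := K)).toMultilinearMap.map_sum
      (fun c o => γ c o • U c o)
  have hterm : ∀ χ : Fin n → Option (Fin p), ∃ ω ∈ A,
      Matrix.det (Matrix.of fun c => γ c (χ c) • U c (χ c)) = mon y (exc ex I) * ω := by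
    intro χ
    have hdet : Matrix.det (Matrix.of fun c => γ c (χ c) • U c (χ c)) =
        (∏ c, γ c (χ c)) * Matrix.det (Matrix.of fun c => U c (χ c)) := by
      have h1 : (Matrix.of fun c => γ c (χ c) • U c (χ c)) =
          Matrix.of fun i j => γ i (χ i) * (Matrix.of fun c => U c (χ c)) i j := by
        ext i j
        simp
      rw [h1, Matrix.det_mul_column]
    by_cases hinj : ∃ c c' l i i', c ≠ c' ∧ χ c = some l ∧ χ c' = some l ∧
        φ c = some (Sum.inr i) ∧ φ c' = some (Sum.inr i')
    · obtain ⟨c, c', l, i, i', hne, h1, h2, h3, h4⟩ := hinj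
      refine ⟨0, A.zero_mem, ?_⟩
      rw [hdet, mul_zero]
      have h5 : Matrix.det (Matrix.of fun c => U c (χ c)) = 0 := by
        refine Matrix.det_zero_of_row_eq hne ?_
        funext r
        simp [Matrix.of_apply, U, h1, h2, h3, h4]
      rw [h5, mul_zero]
    · push Not at hinj
      -- the factors of the columns
      let κ : Fin n → K := fun c => match φ c, χ c with
        | some (Sum.inr i), some l => cc i * (ex i l : K)
        | some (Sum.inr i), none => 1
        | _, some _ => 0
        | _, none => 1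
      let E : Fin n → Fin p → ℕ := fun c l' => (φ c).elim 0 (Sum.elim (fun _ => 0)
        (fun i => ex i l' - if χ c = some l' then 1 else 0))
      have hκ : ∀ c, κ c ∈ A := by
        intro c
        rcases hc : φ c with _ | (j | i) <;> rcases hχ : χ c with _ | l
        · simp [κ, hc, hχ]
        · simp [κ, hc, hχ]
        · simp [κ, hc, hχ]
        · simp [κ, hc, hχ]
        · simp [κ, hc, hχ]
        · simpa [κ, hc, hχ] using A.mul_mem (hcc i) (natCast_mem A _)
      have hγ : ∀ c, γ c (χ c) = κ c * mon y (E c) := by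
        intro c
        rcases hc : φ c with _ | (j | i) <;> rcases hχ : χ c with _ | l
        · simp [γ, κ, E, hc, hχ, mon]
        · simp [γ, κ, E, hc, hχ, mon]
        · simp [γ, κ, E, hc, hχ, mon]
        · simp [γ, κ, E, hc, hχ, mon]
        · simp [γ, κ, E, hc, hχ, mon]
        · have h1 : E c = fun l' => ex i l' - if l' = l then 1 else 0 := by
            funext l'
            simp only [E, hc, hχ, Option.elim_some, Sum.elim_inr, Option.some.injEq]
            by_cases h : l' = l
            · rw [if_pos h, if_pos h.symm]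
            · rw [if_neg h, if_neg fun h' => h h'.symm]
          rw [h1]
          simp [γ, κ, hc, hχ]
      have hprod : ∏ c, γ c (χ c) = (∏ c, κ c) * mon y (fun l => ∑ c, E c l) := by
        rw [Finset.prod_congr rfl fun c _ => hγ c, Finset.prod_mul_distrib]
        congr 1
        unfold mon
        rw [Finset.prod_comm]
        exact Finset.prod_congr rfl fun l _ => Finset.prod_pow_eq_pow_sum _ _ _
      have hle : ∀ l, exc ex I l ≤ ∑ c, E c l := by
        intro l
        unfold exc
        rw [← cov_sum φ I hφ (fun i => ex i l)]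
        have h1 : ∀ c, (φ c).elim 0 (Sum.elim (fun _ => 0) fun i => ex i l) ≤
            E c l + (if (∃ i, φ c = some (Sum.inr i)) ∧ χ c = some l then 1 else 0) := by
          intro c
          rcases hc : φ c with _ | (j | i)
          · simp [E]
          · simp [E]
          · simp only [E, hc, Option.elim_some, Sum.elim_inr]
            by_cases h : χ c = some l
            · simp [h]
              omega
            · simp [h]
        have h2 := Finset.sum_le_sum fun c (_ : c ∈ (Finset.univ : Finset (Fin n))) => h1 c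
        rw [Finset.sum_add_distrib] at h2
        have h3 : ∑ c : Fin n, (if (∃ i, φ c = some (Sum.inr i)) ∧ χ c = some l then 1 else 0) ≤
            1 := by
          rw [← Finset.card_filter, Finset.card_le_one]
          intro c hc c' hc'
          rw [Finset.mem_filter] at hc hc'
          obtain ⟨-, ⟨i, hi⟩, h4⟩ := hc
          obtain ⟨-, ⟨i', hi'⟩, h5⟩ := hc'
          by_contra hne
          exact hinj c c' l i i' hne h4 h5 hi hi'
        omega
      obtain ⟨ω, hω, h1⟩ := mon_le A hy hle
      refine ⟨(∏ c, κ c) * ω * Matrix.det (Matrix.of fun c => U c (χ c)), ?_, ?_⟩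
      · refine A.mul_mem (A.mul_mem (A.prod_mem fun c _ => hκ c) hω) ?_
        rw [Matrix.det_apply]
        refine A.sum_mem fun σ _ => ?_
        rw [Units.smul_def, zsmul_eq_mul]
        exact A.mul_mem (intCast_mem A _) (A.prod_mem fun c _ => hUA _ _ _)
      · rw [hdet, hprod, h1]
        ring
  choose ω hω h1 using hterm
  refine ⟨∑ χ, ω χ, A.sum_mem fun χ _ => hω χ, ?_⟩
  rw [hexp, Finset.mul_sum]
  exact Finset.sum_congr rfl fun χ _ => h1 χ

/-- **the determinant of the table is divisible**, factors shared by the components -/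
theorem absT (A : Subalgebra ℚ K) (hNC : SNC f F s) (x : Fin n → K) (hx : ∀ c, x c ∈ A)
    (hfx : ∀ j, aeval x (f j) = 0) (y : Fin p → K) (hy : ∀ l, y l ∈ A)
    (ex : Fin N → Fin p → ℕ) (B : Matrix (Fin n) (Fin n) K)
    (ν : Fin s → Fin n) (hν : Function.Injective ν) (hBA : ∀ ρ c, B ρ c ∈ A)
    (cc : Fin N → Fin w → K) (hcc : ∀ i j, cc i j ∈ A)
    (hF : ∀ i j, aeval x (F i j) = cc i j * mon y (ex i))
    (hB0 : ∀ ρ, (∀ j, ρ ≠ ν j) → ∀ j, ∑ c, B ρ c * aeval x (pderiv c (f j)) = 0)
    (Y' : Fin n → Fin p → K) (hY' : ∀ r l, Y' r l ∈ A)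
    (C' : Fin n → Fin N → Fin w → K) (hC' : ∀ r i j, C' r i j ∈ A)
    (hB : ∀ ρ, (∀ j, ρ ≠ ν j) → ∀ i j, ∑ c, B ρ c * aeval x (pderiv c (F i j)) =
      ∑ l, (cc i j * (ex i l : K) * mon y (fun l' => ex i l' - if l' = l then 1 else 0)) * Y' ρ l +
        mon y (ex i) * C' ρ i j)
    (c : Fin n) : ∃ (m : ℕ), ∃ ω ∈ A, x c ^ m * B.det = mon y (exc ex Finset.univ) * ω := by
  classical
  -- the determinants
  have hdet : ∀ (T : Fin s → Fin g) (J : Fin N → Fin w) (I : Finset (Fin N)) φ,
      Cov φ (EI s I : Set (Fin s ⊕ Fin N)) →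
      ∃ ω ∈ A, (B * GM (gradAt (fun a => f (T a)) (fun i => F i (J i)) x) φ).det =
        mon y (exc ex I) * ω := by
    intro T J I φ hφ
    set M := B * GM (gradAt (fun a => f (T a)) (fun i => F i (J i)) x) φ with hM
    have hM0 : ∀ r c, φ c = none → M r c = B r c := by
      intro r c hc
      rw [hM, Matrix.mul_apply]
      simp [GM, hc]
    have hM1 : ∀ r c j, φ c = some (Sum.inl j) → M r c =
        ∑ c', B r c' * aeval x (pderiv c' (f (T j))) := by
      intro r c j hc
      rw [hM, Matrix.mul_apply]
      simp [GM, hc, gradAt]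
    have hM2 : ∀ r c i, φ c = some (Sum.inr i) → M r c =
        ∑ c', B r c' * aeval x (pderiv c' (F i (J i))) := by
      intro r c i hc
      rw [hM, Matrix.mul_apply]
      simp [GM, hc, gradAt]
    have hMA : ∀ r c, (∀ i, φ c ≠ some (Sum.inr i)) → M r c ∈ A := by
      intro r c h
      rcases hc : φ c with _ | (j | i)
      · rw [hM0 _ _ hc]; exact hBA _ _
      · rw [hM1 _ _ _ hc]
        exact A.sum_mem fun c' _ => A.mul_mem (hBA _ _) (aeval_mem A x hx _)
      · exact absurd hc (h i)
    have hcc' : ∀ j : Fin s, ∃ c, φ c = some (Sum.inl j) := fun j =>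
      (hφ.2 (Sum.inl j)).1 (by simp [EI])
    choose ci hci using hcc'
    have hciinj : Function.Injective ci := by
      intro j j' h
      have h1 := hci j
      rw [h, hci j'] at h1
      exact (Sum.inl_injective (Option.some.inj h1)).symm
    -- the entries which do not matter
    set M' : Matrix (Fin n) (Fin n) K := Matrix.of fun r c =>
      if (∃ i, φ c = some (Sum.inr i)) ∧ (∃ j, r = ν j) then 0 else M r c with hM'
    have hMM' : M.det = M'.det := by
      rw [Matrix.det_apply, Matrix.det_apply]
      refine Finset.sum_congr rfl fun σ _ => ?_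
      congr 1
      by_cases hgood : ∀ j, ∃ j', σ (ci j) = ν j'
      · choose κ hκ using hgood
        have hκinj : Function.Injective κ := by
          intro j j' h
          have h1 := hκ j
          rw [h, ← hκ j'] at h1
          exact hciinj (σ.injective h1)
        have hκsurj : Function.Surjective κ := Finite.injective_iff_surjective.1 hκinj
        refine Finset.prod_congr rfl fun c _ => ?_
        rw [hM', Matrix.of_apply, if_neg]
        rintro ⟨⟨i, hi⟩, j, hj⟩
        obtain ⟨j', rfl⟩ := hκsurj j
        rw [← hκ j'] at hj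
        have h3 := σ.injective hj
        rw [h3, hci j'] at hi
        simp at hi
      · push Not at hgood
        obtain ⟨j, hcj⟩ := hgood
        have h1 : M (σ (ci j)) (ci j) = 0 := by
          rw [hM1 _ _ _ (hci j)]
          exact hB0 _ hcj (T j)
        have h2 : M' (σ (ci j)) (ci j) = 0 := by
          rw [hM', Matrix.of_apply]
          split_ifs
          · rfl
          · exact h1
        have e1 : ∏ c, M (σ c) c = 0 :=
          Finset.prod_eq_zero (f := fun c => M (σ c) c) (Finset.mem_univ (ci j)) h1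
        have e2 : ∏ c, M' (σ c) c = 0 :=
          Finset.prod_eq_zero (f := fun c => M' (σ c) c) (Finset.mem_univ (ci j)) h2
        rw [e1, e2]
    rw [hMM']
    refine detShare A y hy ex I φ hφ M' (fun i => cc i (J i)) (fun i => hcc i (J i))
      (fun r l => if ∃ j, r = ν j then 0 else Y' r l) (fun r l => ?_)
      (fun r i => if ∃ j, r = ν j then 0 else C' r i (J i)) (fun r i => ?_) (fun r c h => ?_)
      (fun r c i hc => ?_)
    · split_ifs
      · exact A.zero_mem
      · exact hY' r l
    · split_ifs
      · exact A.zero_mem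
      · exact hC' r i (J i)
    · rw [hM', Matrix.of_apply, if_neg]
      · exact hMA r c h
      · rintro ⟨⟨i, hi⟩, -⟩
        exact h i hi
    · rw [hM', Matrix.of_apply]
      by_cases hr : ∃ j, r = ν j
      · rw [if_pos ⟨⟨i, hc⟩, hr⟩]
        simp [hr]
      · rw [if_neg (fun h => hr h.2), hM2 _ _ _ hc]
        simp only [if_neg hr]
        exact hB r (fun j hj => hr ⟨j, hj⟩) i (J i)
  suffices H : ∀ I : Finset (Fin N), ∃ (m : ℕ), ∃ ω ∈ A,
      x c ^ m * B.det = mon y (exc ex I) * ω from H Finset.univ
  intro I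
  induction I using Finset.strongInduction with
  | H I ih =>
  obtain ⟨m, hm⟩ := null_n f F hNC I c
  have hle : Ideal.span ((Set.range f ∪ {h | ∃ i ∈ I, ∃ j, h = F i j}) ∪
        {h | ∃ (T : Fin s → Fin g) (J : Fin N → Fin w) (φ : Fin n → Option (Fin s ⊕ Fin N)),
          Cov φ (EI s I : Set (Fin s ⊕ Fin N)) ∧
          h = (GM (grad (fun a => f (T a)) (fun i => F i (J i))) φ).det}) ≤
      bI A x hx (x c) B.det (mon y (exc ex I)) (hx c) := by
    rw [Ideal.span_le]
    rintro h ((⟨j, rfl⟩ | ⟨i, hi, j, rfl⟩) | ⟨T, J, φ, hφ, rfl⟩)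
    · exact ⟨0, 0, A.zero_mem, by rw [hfx, mul_zero, mul_zero]⟩
    · obtain ⟨m', ω, hω, h1⟩ := ih (I.erase i) (Finset.erase_ssubset hi)
      obtain ⟨ω', hω', h2⟩ := mon_le A hy (a := exc ex I)
        (b := fun l => ex i l + exc ex (I.erase i) l) (fun l => by
          unfold exc
          rw [← Finset.add_sum_erase I (fun i => ex i l) hi]
          omega)
      refine ⟨m', cc i j * ω' * ω, A.mul_mem (A.mul_mem (hcc i j) hω') hω, ?_⟩
      rw [h1, hF]
      calc mon y (exc ex (I.erase i)) * ω * (cc i j * mon y (ex i)) =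
            cc i j * ω * (mon y (ex i) * mon y (exc ex (I.erase i))) := by ring
        _ = cc i j * ω * (mon y (exc ex I) * ω') := by rw [mon_mul, h2]
        _ = _ := by ring
    · obtain ⟨ω, hω, h1⟩ := hdet T J I φ hφ
      refine ⟨0, ω, hω, ?_⟩
      rw [pow_zero, one_mul, aeval_GM, ← Matrix.det_mul, h1]
  obtain ⟨m', ω, hω, h⟩ := hle hm
  refine ⟨m' + m, ω, hω, ?_⟩
  rw [map_pow, aeval_X] at h
  rw [← h, pow_add]
  ring

end abs

end Pool.Agent.Y731.GV
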