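import Mathlib
import Pool.Agent.TH551.HA.Jr2
import Pool.Agent.Y731.GV.Alg

/-!
# Normal crossings divisors on smooth projective varieties, integrality and domination
-/

set_option autoImplicit false
set_option linter.unusedSectionVars false
set_option linter.unusedVariables false

namespace Pool.Agent.Y731.GV

open Filter Topology Pool.Agent.TH932.Germs Pool.Agent.TH551.SU Pool.Agent.TH551.ZP
open Pool.Agent.TH551.SU.CRV Pool.Agent.TH551.ZP.GT MvPolynomial Pool.Agent.TH551.HA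
open Pool.Agent.TH551.HA.P1 (DP_sum rat_mem DP_const AQ AD qi_int)
open Pool.Agent.TH551.HA.Ci (pderiv_scale)

section

variable {s' : ℕ} {b : Fin s' → ℕ} {L : ℕ → ℝ} {n m s g N w : ℕ}

/-- divisibility by means of powers of coprime coordinates -/
theorem qi_of_pow (hb : ∀ v, (b v).Prime) (hL : Tendsto L atTop atTop)
    (x : Fin n → ℕ → ℤ) (hc : ∀ t, Finset.univ.gcd (fun c => x c t) = 1) (Q W : GG)
    (h : ∀ c, ∃ m : ℕ, ∃ ω, QI b L ω ∧ gm (fun t => (x c t : ℚ)) ^ m * W = Q * ω) :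
    ∃ Ω, QI b L Ω ∧ W = Q * Ω := by
  classical
  set X : Fin n → GG := fun c => gm (fun t => (x c t : ℚ)) with hX
  have hXq : ∀ c, QI b L (X c) := fun c => qi_int hL (x c)
  choose m ω hω h using h
  obtain ⟨M, hM⟩ : ∃ M, M = ∑ c, m c := ⟨_, rfl⟩
  have hmM : ∀ c, m c ≤ M := fun c => by
    rw [hM]
    exact Finset.single_le_sum (fun _ _ => Nat.zero_le _) (Finset.mem_univ c)
  have hcomb : ∀ t, ∃ u : Fin n → ℤ, ∑ c, u c * (x c t) ^ M = 1 := by
    intro t
    have h1 : Ideal.span (Set.range fun c => x c t) = ⊤ := by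
      rw [Ideal.eq_top_iff_one, Ideal.mem_span_range_iff_exists_fun]
      obtain ⟨u, hu⟩ := exists_gcd_comb Finset.univ (fun c => x c t)
      exact ⟨u, by rw [hu]; exact hc t⟩
    have h2 := Ideal.span_pow_eq_top _ h1 M
    rw [← Set.range_comp, Ideal.eq_top_iff_one, Ideal.mem_span_range_iff_exists_fun] at h2
    obtain ⟨u, hu⟩ := h2
    exact ⟨u, hu⟩
  choose u hu using hcomb
  have hU : ∑ c, gm (fun t => (u t c : ℚ)) * X c ^ M = 1 := by
    rw [hX]
    simp only [gm_pow, gm_mul]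
    rw [gm_sum', ← gm_one]
    congr 1
    funext t
    have h5 := hu t
    exact_mod_cast h5
  refine ⟨∑ c, gm (fun t => (u t c : ℚ)) * (X c ^ (M - m c) * ω c), ?_, ?_⟩
  · refine QI.sum hb hL _ _ fun c _ => QI.mul hb (qi_int hL fun t => u t c) ?_
    exact QI.mul hb ((AQ hb hL).pow_mem (hXq c) _) (hω c)
  · calc W = (∑ c, gm (fun t => (u t c : ℚ)) * X c ^ M) * W := by rw [hU, one_mul]
      _ = ∑ c, gm (fun t => (u t c : ℚ)) * (X c ^ (M - m c) * (X c ^ m c * W)) := by
          rw [Finset.sum_mul]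
          refine Finset.sum_congr rfl fun c _ => ?_
          rw [← mul_assoc (X c ^ (M - m c)), ← pow_add, Nat.sub_add_cancel (hmM c)]
          ring
      _ = _ := by
          rw [Finset.mul_sum]
          refine Finset.sum_congr rfl fun c _ => ?_
          rw [h c]
          ring

/-- the rows of the table -/
lemma tab_inl {K : Type} [Field K] {k t : ℕ} (π : Fin k ⊕ Fin t ≃ Fin n)
    (R : Fin k → Fin n → K) (ρ : Fin k) (c : Fin n) : tab π R (π (Sum.inl ρ)) c = R ρ c := by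
  simp [tab]

lemma tab_mem {K : Type} [Field K] [Algebra ℚ K] (A : Subalgebra ℚ K) {k t : ℕ}
    (π : Fin k ⊕ Fin t ≃ Fin n) (R : Fin k → Fin n → K) (hR : ∀ ρ c, R ρ c ∈ A) (r c : Fin n) :
    tab π R r c ∈ A := by
  obtain ⟨r', rfl⟩ := π.surjective r
  rcases r' with r' | r'
  · rw [tab_inl]; exact hR _ _
  · simp only [tab, Matrix.of_apply, Equiv.symm_apply_apply, Sum.elim_inr]
    split_ifs
    · exact A.one_mem
    · exact A.zero_mem

lemma row_cases {k t : ℕ} (π : Fin k ⊕ Fin t ≃ Fin n) (p : Fin n → Prop)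
    (hp : ∀ ρ, p (π (Sum.inl ρ))) (r : Fin n) (hr : ∀ j, r ≠ π (Sum.inr j)) : p r := by
  obtain ⟨r', rfl⟩ := π.surjective r
  rcases r' with r' | r'
  · exact hp r'
  · exact absurd rfl (hr r')

/-- divisibility of the minors of the table -/
theorem qiPart (f : Fin g → MvPolynomial (Fin n) ℚ) (F : Fin N → Fin w → MvPolynomial (Fin n) ℚ)
    (hb : ∀ v, (b v).Prime) (hL : Tendsto L atTop atTop) (hNC : SNC f F s)
    (x : Fin n → ℕ → ℤ) (hc : ∀ t, Finset.univ.gcd (fun c => x c t) = 1)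
    (hfx : ∀ j, aeval (fun c => gm (fun t => (x c t : ℚ))) (f j) = 0)
    (R : Fin (m + 1) → Fin n → GG) (π : Fin (m + 1) ⊕ Fin s ≃ Fin n)
    (G : Fin N → GG) (hRA : ∀ ρ c, QI b L (R ρ c))
    (hF : ∀ i j, ∃ ω, QI b L ω ∧ aeval (fun c => gm (fun t => (x c t : ℚ))) (F i j) = G i * ω)
    (hR0 : ∀ ρ j, ∑ c, R ρ c * aeval (fun c => gm (fun t => (x c t : ℚ))) (pderiv c (f j)) = 0)
    (hR : ∀ ρ i j, ∃ ω, QI b L ω ∧
      ∑ c, R ρ c * aeval (fun c => gm (fun t => (x c t : ℚ))) (pderiv c (F i j)) = G i * ω) :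
    ∃ Ω, QI b L Ω ∧ (Matrix.of fun ρ i => R ρ (π (Sum.inl i))).det = (∏ i, G i) * Ω := by
  classical
  refine qi_of_pow hb hL x hc _ _ fun c => ?_
  rw [← tab_det]
  exact absC f F (AQ hb hL) hNC (fun c => gm (fun t => (x c t : ℚ))) (fun c => qi_int hL (x c))
    hfx G (tab π R) (fun j => π (Sum.inr j)) (fun j j' h => Sum.inr_injective (π.injective h))
    (tab_mem (AQ hb hL) π R hRA) hF
    (row_cases π _ fun ρ j => by simp only [tab_inl]; exact hR0 ρ j)
    (row_cases π _ fun ρ i j => by simp only [tab_inl]; exact hR ρ i j) c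

/-- domination of the minors of the table -/
theorem domPart (f : Fin g → MvPolynomial (Fin n) ℚ) (F : Fin N → Fin w → MvPolynomial (Fin n) ℚ)
    {dd : Fin N → Fin w → ℕ} {ee : Fin g → ℕ}
    (hb : ∀ v, (b v).Prime) (hbi : Function.Injective b)
    (hL : Tendsto L atTop atTop) (hf : ∀ j, (f j).IsHomogeneous (ee j))
    (hF : ∀ i j, (F i j).IsHomogeneous (dd i j)) (hNC : SNC f F s)
    (v : Option (Fin s')) (X : Fin n → GG) (a : Fin n) (hXa : X a ≠ 0)
    (h1 : ∀ c, Dom b L v (X c) (X a)) (hfx : ∀ j, aeval X (f j) = 0)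
    (R : Fin (m + 1) → Fin n → GG) (π : Fin (m + 1) ⊕ Fin s ≃ Fin n)
    (hRX : ∀ ρ c, Dom b L v (R ρ c) (X c))
    (hR0 : ∀ ρ j, ∑ c, R ρ c * aeval X (pderiv c (f j)) = 0)
    (J : Fin N → Fin w) (hF0 : ∀ i, aeval X (F i (J i)) ≠ 0)
    (hJ : ∀ i j, Dom b L v (aeval X (F i j) * X a ^ (dd i (J i)))
      (aeval X (F i (J i)) * X a ^ (dd i j)))
    (hR : ∀ ρ i j, Dom b L v (∑ c, R ρ c * aeval X (pderiv c (F i j))) (aeval X (F i j))) :
    Dom b L v ((Matrix.of fun ρ i => R ρ (π (Sum.inl i))).det * X a ^ (∑ i, dd i (J i)))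
      (X a ^ (m + 1) * ∏ i, aeval X (F i (J i))) := by
  classical
  obtain ⟨l, hl⟩ : ∃ l, l = (X a)⁻¹ := ⟨_, rfl⟩
  have hla : l * X a = 1 := by rw [hl]; exact inv_mul_cancel₀ hXa
  have hmul : ∀ (w f g : GG), Dom b L v f g → w * g = 1 → Dom b L v (w * f) 1 := by
    intro w f g h hw
    have h3 := Dom.mul hb (Dom.refl hb hL v w) h
    rwa [hw] at h3
  have hlp : ∀ k : ℕ, l ^ k * X a ^ k = 1 := fun k => by rw [← mul_pow, hla, one_pow]
  -- the quotients by the normalised value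
  have hq : ∀ i j (y : GG), Dom b L v y (aeval X (F i j)) →
      ∃ ω ∈ AD hb hbi hL v, l ^ dd i j * y = (l ^ dd i (J i) * aeval X (F i (J i))) * ω := by
    intro i j y hy
    refine ⟨(aeval X (F i (J i)) * X a ^ (dd i j))⁻¹ * (y * X a ^ (dd i (J i))), ?_, ?_⟩
    · refine hmul _ _ (aeval X (F i (J i)) * X a ^ (dd i j)) ?_ (inv_mul_cancel₀
        (mul_ne_zero (hF0 i) (pow_ne_zero _ hXa)))
      exact Dom.trans hb (Dom.mul hb hy (Dom.refl hb hL v _)) (hJ i j)
    · have e1 := hF0 i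
      have e2 := hlp (dd i j)
      have e3 := hlp (dd i (J i))
      have e4 : (X a ^ (dd i j))⁻¹ = l ^ dd i j := by
        rw [hl, inv_pow]
      rw [mul_inv, e4]
      calc l ^ dd i j * y = (l ^ dd i (J i) * X a ^ dd i (J i)) *
            (aeval X (F i (J i)) * (aeval X (F i (J i)))⁻¹) * (l ^ dd i j * y) := by
            rw [e3, mul_inv_cancel₀ e1, one_mul, one_mul]
        _ = _ := by ring
  obtain ⟨k, ω, hω, h⟩ := absC f F (AD hb hbi hL v) hNC (fun c => l * X c)
    (fun c => hmul _ _ _ (h1 c) hla)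
    (fun j => by rw [aeval_scale _ _ (hf j), hfx, mul_zero])
    (fun i => l ^ dd i (J i) * aeval X (F i (J i))) (tab π fun ρ c => l * R ρ c)
    (fun j => π (Sum.inr j)) (fun j j' h => Sum.inr_injective (π.injective h))
    (tab_mem _ π _ fun ρ c => hmul _ _ _ (Dom.trans hb (hRX ρ c) (h1 c)) hla)
    (fun i j => by
      rw [aeval_scale _ _ (hF i j)]
      exact hq i j _ (Dom.refl hb hL v _))
    (row_cases π _ fun ρ j => by
      simp only [tab_inl]
      have h2 : ∑ c, l * R ρ c * aeval (fun c => l * X c) (pderiv c (f j)) =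
          l ^ ee j * ∑ c, R ρ c * aeval X (pderiv c (f j)) := by
        rw [Finset.mul_sum]
        refine Finset.sum_congr rfl fun c _ => ?_
        have h4 := pderiv_scale (f j) (ee j) (hf j) X l c
        linear_combination R ρ c * h4
      rw [h2, hR0, mul_zero])
    (row_cases π _ fun ρ i j => by
      simp only [tab_inl]
      have h2 : ∑ c, l * R ρ c * aeval (fun c => l * X c) (pderiv c (F i j)) =
          l ^ dd i j * ∑ c, R ρ c * aeval X (pderiv c (F i j)) := by
        rw [Finset.mul_sum]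
        refine Finset.sum_congr rfl fun c _ => ?_
        have h4 := pderiv_scale (F i j) (dd i j) (hF i j) X l c
        linear_combination R ρ c * h4
      rw [h2]
      exact hq i j _ (hR ρ i j)) a
  rw [hla, one_pow, one_mul, tab_det] at h
  have hd : (Matrix.of fun ρ i => l * R ρ (π (Sum.inl i))).det =
      l ^ (m + 1) * (Matrix.of fun ρ i => R ρ (π (Sum.inl i))).det := by
    have h2 : (Matrix.of fun ρ i => l * R ρ (π (Sum.inl i))) =
        l • (Matrix.of fun ρ i => R ρ (π (Sum.inl i))) := by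
      ext ρ i
      simp
    rw [h2, Matrix.det_smul, Fintype.card_fin]
  rw [hd, Finset.prod_mul_distrib, Finset.prod_pow_eq_pow_sum] at h
  have e1 := hlp (m + 1)
  have e3 := hlp (∑ i, dd i (J i))
  have h5 : (Matrix.of fun ρ i => R ρ (π (Sum.inl i))).det * X a ^ (∑ i, dd i (J i)) =
      (X a ^ (m + 1) * ∏ i, aeval X (F i (J i))) * ω := by
    generalize (Matrix.of fun ρ i => R ρ (π (Sum.inl i))).det = W at *
    generalize ∏ i, aeval X (F i (J i)) = Φ at *
    generalize X a ^ (∑ i, dd i (J i)) = Aq at *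
    generalize l ^ (∑ i, dd i (J i)) = lq at *
    generalize X a ^ (m + 1) = Bq at *
    generalize l ^ (m + 1) = mq at *
    calc W * Aq = (mq * Bq) * W * Aq := by rw [e1]; ring
      _ = Bq * (mq * W) * Aq := by ring
      _ = Bq * (lq * Φ * ω) * Aq := by rw [h]
      _ = (lq * Aq) * (Bq * Φ * ω) := by ring
      _ = _ := by rw [e3, one_mul]
  rw [h5]
  have h6 := Dom.mul hb (Dom.refl hb hL v (X a ^ (m + 1) * ∏ i, aeval X (F i (J i)))) hω
  rwa [mul_one] at h6

end

end Pool.Agent.Y731.GV
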