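import Mathlib
import Pool.Agent.TH551.HA.Jr3
import Pool.Agent.Y731.GV.Par
import Pool.Agent.Y731.GV.AlgT

/-!
# Divisibility of the minors with factors shared by the components
-/

set_option autoImplicit false
set_option linter.unusedSectionVars false
set_option linter.unusedVariables false

namespace Pool.Agent.Y731.GV

open Filter Topology Pool.Agent.TH932.Germs Pool.Agent.TH551.SU Pool.Agent.TH551.ZP
open Pool.Agent.TH551.SU.CRV Pool.Agent.TH551.ZP.GT MvPolynomial Pool.Agent.TH551.HA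
open Pool.Agent.TH551.HA.P1 (DP_sum rat_mem DP_const AQ AD qi_int)

section

variable {s' : ℕ} {b : Fin s' → ℕ} {L : ℕ → ℝ} {n m s g N w p : ℕ}

/-- divisibility of the minors of the table, shared factors -/
theorem qiPartT (f : Fin g → MvPolynomial (Fin n) ℚ)
    (F : Fin N → Fin w → MvPolynomial (Fin n) ℚ)
    (hb : ∀ v, (b v).Prime) (hL : Tendsto L atTop atTop) (hNC : SNC f F s)
    (x : Fin n → ℕ → ℤ) (hc : ∀ t, Finset.univ.gcd (fun c => x c t) = 1)
    (hfx : ∀ j, aeval (fun c => gm (fun t => (x c t : ℚ))) (f j) = 0)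
    (R : Fin (m + 1) → Fin n → GG) (π : Fin (m + 1) ⊕ Fin s ≃ Fin n)
    (hRA : ∀ ρ c, QI b L (R ρ c))
    (y : Fin p → GG) (hy : ∀ l, QI b L (y l)) (ex : Fin N → Fin p → ℕ)
    (cc : Fin N → Fin w → GG) (hcc : ∀ i j, QI b L (cc i j))
    (hF : ∀ i j, aeval (fun c => gm (fun t => (x c t : ℚ))) (F i j) = cc i j * mon y (ex i))
    (hR0 : ∀ ρ j, ∑ c, R ρ c * aeval (fun c => gm (fun t => (x c t : ℚ))) (pderiv c (f j)) = 0)
    (Y' : Fin (m + 1) → Fin p → GG) (hY' : ∀ r l, QI b L (Y' r l))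
    (C' : Fin (m + 1) → Fin N → Fin w → GG) (hC' : ∀ r i j, QI b L (C' r i j))
    (hR : ∀ ρ i j, ∑ c, R ρ c * aeval (fun c => gm (fun t => (x c t : ℚ))) (pderiv c (F i j)) =
      ∑ l, (cc i j * (ex i l : GG) * mon y (fun l' => ex i l' - if l' = l then 1 else 0)) *
        Y' ρ l + mon y (ex i) * C' ρ i j) :
    ∃ Ω, QI b L Ω ∧ (Matrix.of fun ρ i => R ρ (π (Sum.inl i))).det =
      mon y (exc ex Finset.univ) * Ω := by
  classical
  refine qi_of_pow hb hL x hc _ _ fun c => ?_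
  rw [← tab_det]
  refine absT f F (AQ hb hL) hNC (fun c => gm (fun t => (x c t : ℚ))) (fun c => qi_int hL (x c))
    hfx y hy ex (tab π R) (fun j => π (Sum.inr j))
    (fun j j' h => Sum.inr_injective (π.injective h))
    (tab_mem (AQ hb hL) π R hRA) cc hcc hF
    (row_cases π _ fun ρ j => by simp only [tab_inl]; exact hR0 ρ j)
    (fun r l => Sum.elim (fun ρ => Y' ρ l) (fun _ => 0) (π.symm r)) (fun r l => ?_)
    (fun r i j => Sum.elim (fun ρ => C' ρ i j) (fun _ => 0) (π.symm r)) (fun r i j => ?_)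
    (row_cases π _ fun ρ i j => by
      simp only [tab_inl, Equiv.symm_apply_apply, Sum.elim_inl]
      exact hR ρ i j) c
  · rcases π.symm r with ρ | j
    · exact hY' ρ l
    · exact (AQ hb hL).zero_mem
  · rcases π.symm r with ρ | j'
    · exact hC' ρ i j
    · exact (AQ hb hL).zero_mem

end

section

variable {s' : ℕ} {b : Fin s' → ℕ} {L : ℕ → ℝ} {r : ℕ} {hL : Tendsto L atTop atTop}
  {U : Fin (r + 1) → GG} {l : Fin (r + 1) → ℕ} {d : ℕ} {δ : DerQ GG}
  {ψ : GG →ₗ[KK L hL] KK L hL}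

/-- the derivative of a power -/
lemma DP_pow' (hb : ∀ v, (b v).Prime) (hs : Setup b hL U l d) {Y : Polynomial GG}
    (hY : Lift hL U l 1 Y) (a : ℕ) (hd : a ≤ d) :
    (DP hL δ ψ (Y ^ a)).eval 1 = (a : GG) * Y.eval 1 ^ (a - 1) * (DP hL δ ψ Y).eval 1 := by
  rcases a with _ | a
  · rw [pow_zero, Nat.cast_zero, zero_mul, zero_mul]
    have h1 : (1 : Polynomial GG) = Polynomial.C 1 * Polynomial.X ^ 0 := by simp
    rw [h1, DP_C_mul_X_pow]
    simp [Dps]
  · rw [DP_pow hb hs hY a (by omega), Nat.add_sub_cancel]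
    simp only [Polynomial.eval_mul, Polynomial.eval_pow, Polynomial.eval_natCast]

/-- the derivative of a monomial -/
lemma DP_mon (hb : ∀ v, (b v).Prime) (hs : Setup b hL U l d) {p : ℕ}
    (Y : Fin p → Polynomial GG) (hY : ∀ i, Lift hL U l 1 (Y i)) (A : Finset (Fin p))
    (a : Fin p → ℕ) (hd : ∑ i ∈ A, a i ≤ d) :
    (DP hL δ ψ (∏ i ∈ A, Y i ^ a i)).eval 1 = ∑ i ∈ A, (a i : GG) *
      (∏ i' ∈ A, (Y i').eval 1 ^ (a i' - if i' = i then 1 else 0)) *
        (DP hL δ ψ (Y i)).eval 1 := by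
  classical
  induction A using Finset.induction_on with
  | empty =>
    rw [Finset.prod_empty, Finset.sum_empty]
    have h1 : (1 : Polynomial GG) = Polynomial.C 1 * Polynomial.X ^ 0 := by simp
    rw [h1, DP_C_mul_X_pow]
    simp [Dps]
  | insert i0 A ha ih =>
    rw [Finset.sum_insert ha] at hd
    have hP : Lift hL U l (∑ i ∈ A, 1 * a i) (∏ i ∈ A, Y i ^ (a i)) :=
      Lift.prod _ _ _ fun i hi => (hY i).pow (a i)
    have hle : 1 * a i0 + ∑ i ∈ A, 1 * a i ≤ d := by
      simp only [one_mul]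
      omega
    rw [Finset.prod_insert ha, DP_mul hb hs hle ((hY i0).pow _) hP, Polynomial.eval_add,
      Polynomial.eval_mul, Polynomial.eval_mul, DP_pow' hb hs (hY i0) _ (by omega),
      ih (by omega), Finset.sum_insert ha, Finset.prod_insert ha, if_pos rfl,
      Polynomial.eval_prod, Finset.mul_sum]
    congr 1
    · have h1 : ∏ i' ∈ A, (Y i').eval 1 ^ (a i' - if i' = i0 then 1 else 0) =
          ∏ i' ∈ A, (Y i' ^ a i').eval 1 := by
        refine Finset.prod_congr rfl fun i' hi' => ?_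
        have h2 : i' ≠ i0 := fun h => ha (by rw [← h]; exact hi')
        rw [if_neg h2, Nat.sub_zero, Polynomial.eval_pow]
      rw [h1]
      ring
    · refine Finset.sum_congr rfl fun i hi => ?_
      have h2 : i0 ≠ i := fun h => ha (by rw [h]; exact hi)
      rw [Finset.prod_insert ha, if_neg h2, Nat.sub_zero, Polynomial.eval_pow]
      ring

end

end Pool.Agent.Y731.GV
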