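import Mathlib
import Pool.Agent.TH551.HA.Jr3
import Pool.Agent.Y731.GV.ParT

/-!
# The table of tangent vectors, factors shared by the components
-/

set_option autoImplicit false
set_option linter.unusedSectionVars false
set_option linter.unusedVariables false

namespace Pool.Agent.Y731.GV

open Filter Topology Pool.Agent.TH932.Germs Pool.Agent.TH551.SU Pool.Agent.TH551.ZP
open Pool.Agent.TH551.SU.CRV Pool.Agent.TH551.ZP.GT MvPolynomial Pool.Agent.TH551.HA
open Pool.Agent.TH551.HA.P1 (DP_sum rat_mem DP_const AQ AD qi_int dom_of_le)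
open Pool.Agent.TH551.HA.Pn (eval_aeval lift_aeval chain hom_sum)
open Pool.Agent.TH551.HA.Ci (aeval_gmn)

section

variable {s' : ℕ} {b : Fin s' → ℕ} {L : ℕ → ℝ} {r : ℕ} {hL : Tendsto L atTop atTop}
  {U : Fin (r + 1) → GG} {l : Fin (r + 1) → ℕ} {d : ℕ}

/-- **the table** -/
theorem gvTable (hnc : NcStmt) (hcs : CSStmt) (hb : ∀ v, (b v).Prime)
    (hbi : Function.Injective b) (hs : Setup b hL U l d) (hU0 : U 0 = 1) {m s g N w : ℕ} (k : ℕ)
    (f : Fin g → MvPolynomial (Fin (m + 1 + s)) ℚ) (ee : Fin g → ℕ)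
    (hf : ∀ j, (f j).IsHomogeneous (ee j))
    (F : Fin N → Fin w → MvPolynomial (Fin (m + 1 + s)) ℚ) (dd : Fin N → Fin w → ℕ)
    (hF : ∀ i j, (F i j).IsHomogeneous (dd i j)) (hNC : SNC f F s)
    (ex : Fin N → Fin k → ℕ)
    (hd : 1 + (∑ i, ∑ l, ex i l + ∑ i, ∑ j, dd i j) ≤ d) (hd2 : ∀ j, ee j ≤ d)
    (X : Fin (m + 1 + s) → Polynomial GG) (hX : ∀ i, Lift hL U l 1 (X i))
    (x : Fin (m + 1 + s) → ℕ → ℤ) (hx : ∀ i, (X i).eval 1 = gm (fun t => (x i t : ℚ)))
    (Y : Fin k → Polynomial GG) (hY : ∀ i, Lift hL U l 1 (Y i)) (y : Fin k → ℕ → ℤ)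
    (hy : ∀ i, (Y i).eval 1 = gm (fun t => (y i t : ℚ)))
    (CL : Fin N → Fin w → Polynomial GG) (hCL : ∀ i j, Lift hL U l 1 (CL i j))
    (cc : Fin N → Fin w → ℕ → ℤ)
    (hcc : ∀ i j, (CL i j).eval 1 = gm (fun t => (cc i j t : ℚ)))
    (hfA : ∀ j t, aeval (fun c => (x c t : ℚ)) (f j) = 0)
    (hFA : ∀ i j t, aeval (fun c => (x c t : ℚ)) (F i j) =
      ((cc i j t * ∏ l, y l t ^ (ex i l) : ℤ) : ℚ))
    (hgcd : ∀ t, Finset.univ.gcd (fun c => x c t) = 1) (S0 : Fin (m + 1) → Fin (m + 1 + s))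
    (hgen : ∀ G : MvPolynomial (Fin (m + 1)) ℚ, (∃ e, G.IsHomogeneous e) → G ≠ 0 →
      aeval (fun i : Fin (m + 1) => gm (fun t => (x (S0 i) t : ℚ))) G ≠ 0) :
    ∃ R : Fin (m + 1) → Fin (m + 1 + s) → GG,
      (Matrix.of fun ρ i => R ρ (S0 i)).det ≠ 0 ∧
      (∀ ρ j, ∑ c, R ρ c * aeval (fun c => gm (fun t => (x c t : ℚ))) (pderiv c (f j)) = 0) ∧
      (∀ J0 : Fin (m + 1) → Fin (m + 1 + s), ∃ Ω, QI b L Ω ∧
        (Matrix.of fun ρ i => R ρ (J0 i)).det =
          gm (fun t => ((∏ l, y l t ^ (exc ex Finset.univ l) : ℤ) : ℚ)) * Ω) ∧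
      (∀ (J0 : Fin (m + 1) → Fin (m + 1 + s)) (v : Option (Fin s')) (a : Fin (m + 1 + s))
        (J : Fin N → Fin w), (∀ᶠ t in (UU : Filter ℕ), ∀ c, av b v (x c t : ℚ) ≤ av b v (x a t : ℚ)) →
        (∀ᶠ t in (UU : Filter ℕ), ∀ i, aeval (fun c => (x c t : ℚ)) (F i (J i)) ≠ 0) →
        (∀ᶠ t in (UU : Filter ℕ), ∀ i j, av b v (aeval (fun c => (x c t : ℚ)) (F i j)) *
            av b v (x a t : ℚ) ^ dd i (J i) ≤ av b v (aeval (fun c => (x c t : ℚ)) (F i (J i))) *
            av b v (x a t : ℚ) ^ dd i j) →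
        ∀ ε : ℝ, 0 < ε → ∀ᶠ t in (UU : Filter ℕ),
          av b v (rep (Matrix.of fun ρ i => R ρ (J0 i)).det t) *
            av b v (x a t : ℚ) ^ (∑ i, dd i (J i)) ≤
          Real.exp (ε * L t) * (av b v (x a t : ℚ) ^ (m + 1) *
            ∏ i, av b v (aeval (fun c => (x c t : ℚ)) (F i (J i))))) := by
  classical
  have hFle : ∀ σ, ∑ l, ex σ l ≤ ∑ i, ∑ l, ex i l := fun σ =>
    Finset.single_le_sum (f := fun i => ∑ l, ex i l) (fun _ _ => Nat.zero_le _)
      (Finset.mem_univ σ)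
  have hQle : ∀ i j, dd i j ≤ ∑ i, ∑ j, dd i j := fun i j =>
    (Finset.single_le_sum (f := fun j => dd i j) (fun _ _ => Nat.zero_le _)
      (Finset.mem_univ j)).trans (Finset.single_le_sum (f := fun i => ∑ j, dd i j)
        (fun _ _ => Nat.zero_le _) (Finset.mem_univ i))
  obtain ⟨TQ, hTQ⟩ : ∃ TQ, TQ = ∑ i, ∑ j, dd i j := ⟨_, rfl⟩
  rw [← hTQ] at hd
  simp only [← hTQ] at hQle
  obtain ⟨TE, hTE⟩ : ∃ TE, TE = ∑ i, ∑ l, ex i l := ⟨_, rfl⟩
  rw [← hTE] at hd
  simp only [← hTE] at hFle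
  obtain ⟨E, hE⟩ : ∃ E : Polynomial GG, E = Polynomial.X ^ (l 0) := ⟨_, rfl⟩
  have hEL : Lift hL U l 1 E := by
    have h := Lift.gen (hL := hL) (U := U) (l := l) 0
    rw [hU0, Polynomial.C_1, one_mul] at h
    rw [hE]
    exact h
  have hE1 : E.eval 1 = 1 := by rw [hE]; simp
  have hEm : ∀ (δ : DerQ GG) (ψ : GG →ₗ[KK L hL] KK L hL) (n : ℕ), DP hL δ ψ (E ^ n) = 0 := by
    intro δ ψ n
    have h1 : E ^ n = Polynomial.C 1 * Polynomial.X ^ (l 0 * n) := by
      rw [hE, ← pow_mul, Polynomial.C_1, one_mul]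
    rw [h1, DP_C_mul_X_pow]
    simp [Dps]
  obtain ⟨K, hK⟩ : ∃ K : Fin N → Fin w → Polynomial GG, K = fun i j =>
    E ^ (TE + TQ - ∑ l, ex i l) * CL i j := ⟨_, rfl⟩
  obtain ⟨P, hP⟩ : ∃ P : Fin N → Polynomial GG, P = fun σ => ∏ l, Y l ^ (ex σ l) :=
    ⟨_, rfl⟩
  have hKL : ∀ i j, Lift hL U l (1 * (TE + TQ - ∑ l, ex i l) + 1) (K i j) := by
    intro i j
    rw [hK]
    exact (hEL.pow _).mul (hCL i j)
  have hPL : ∀ σ, Lift hL U l (∑ l, 1 * ex σ l) (P σ) := fun σ => by
    rw [hP]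
    exact Lift.prod _ _ _ fun i _ => (hY i).pow (ex σ i)
  have hdeg : ∀ σ, ∑ l, 1 * ex σ l + (1 * (TE + TQ - ∑ l, ex σ l) + 1) = 1 + (TE + TQ) := by
    intro σ
    have h4 := hFle σ
    simp only [one_mul]
    omega
  have haL : ∀ i j, Lift hL U l (1 + (TE + TQ)) (P i * K i j) := by
    intro i j
    have h2 := (hPL i).mul (hKL i j)
    rwa [hdeg i] at h2
  have hK1 : ∀ i j, (K i j).eval 1 = gm (fun t => (cc i j t : ℚ)) := by
    intro i j
    rw [← hcc i j, hK]
    simp [hE1]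
  have hP1 : ∀ σ, (P σ).eval 1 = mon (fun l => (Y l).eval 1) (ex σ) := by
    intro σ
    rw [hP]
    simp only
    rw [Polynomial.eval_prod]
    unfold mon
    exact Finset.prod_congr rfl fun i _ => Polynomial.eval_pow _
  have hmon : ∀ a : Fin k → ℕ, mon (fun l => (Y l).eval 1) a =
      gm (fun t => ((∏ l, y l t ^ (a l) : ℤ) : ℚ)) := by
    intro a
    unfold mon
    simp only [hy, gm_pow]
    rw [gm_prod']
    congr 1
    funext t
    push_cast
    rfl
  have hxe : (fun c => (X c).eval 1) = fun c => gm (fun t => (x c t : ℚ)) := funext hx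
  have hF1 : ∀ i j, (aeval X (F i j)).eval 1 =
      gm (fun t => aeval (fun c => (x c t : ℚ)) (F i j)) := by
    intro i j
    rw [eval_aeval, hxe, aeval_gmn]
  have ha1 : ∀ i j, (P i * K i j).eval 1 =
      gm (fun t => aeval (fun c => (x c t : ℚ)) (F i j)) := by
    intro i j
    rw [Polynomial.eval_mul, hK1, hP1, hmon, gm_mul]
    congr 1
    funext t
    rw [hFA i j t]
    push_cast
    ring
  have hFL : ∀ i j, Lift hL U l (dd i j) (aeval X (F i j)) := fun i j =>
    lift_aeval X hX (F i j) (hF i j)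
  obtain ⟨J, hJ⟩ : ∃ J : Fin N → Fin w → ℕ, J = fun i j => 1 + (TE + TQ) - dd i j :=
    ⟨_, rfl⟩
  have hJd : ∀ i j, dd i j + 1 * J i j = 1 + (TE + TQ) := by
    intro i j
    rw [hJ]
    have := hQle i j
    simp only [one_mul]
    omega
  have hFEL : ∀ i j, Lift hL U l (1 + (TE + TQ)) (aeval X (F i j) * E ^ (J i j)) := by
    intro i j
    have h2 := (hFL i j).mul (hEL.pow (J i j))
    rwa [hJd i j] at h2
  have hrel : ∀ i j, aeval X (F i j) * E ^ (J i j) = P i * K i j := by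
    intro i j
    have h1 := ((hFEL i j).sub (haL i j)).eq_zero hcs hb hbi hs hd (by
      rw [Polynomial.eval_sub, ha1, Polynomial.eval_mul, hF1, Polynomial.eval_pow, hE1, one_pow,
        mul_one, sub_self])
    exact sub_eq_zero.1 h1
  have hDrel : ∀ (δ : DerQ GG) (ψ : GG →ₗ[KK L hL] KK L hL) i j,
      (DP hL δ ψ (aeval X (F i j))).eval 1 = (DP hL δ ψ (P i * K i j)).eval 1 := by
    intro δ ψ i j
    rw [← hrel i j, DP_mul hb hs (by rw [hJd i j]; exact hd) (hFL i j) (hEL.pow (J i j)), hEm,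
      mul_zero, add_zero, Polynomial.eval_mul, Polynomial.eval_pow, hE1, one_pow, mul_one]
  obtain ⟨aa, haa⟩ : ∃ aa : Fin (m + 2) → Polynomial GG,
      aa = Fin.snoc (α := fun _ => Polynomial GG) (fun i => X (S0 i)) 0 := ⟨_, rfl⟩
  have haac : ∀ c : Fin (m + 1), aa (Fin.castSucc c) = X (S0 c) := fun c => by
    rw [haa]
    exact Fin.snoc_castSucc (α := fun _ => Polynomial GG) _ _ _
  obtain ⟨q, δ, ψ, ρ, hρ⟩ := exists_table (hL := hL) aa (by
    simp only [haac, hx]
    exact hgen)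
  obtain ⟨Rr, hRr⟩ : ∃ Rr : Option (Fin m × Fin q) → Fin (m + 1 + s) → GG,
      Rr = fun j c => (match j with
        | none => (X c).eval 1
        | some ij => (DP hL (δ ij.1) (ψ ij.2) (X c)).eval 1) := ⟨_, rfl⟩
  have hR0 : ∀ c, Rr none c = (X c).eval 1 := by
    intro c
    rw [hRr]
  have hRs : ∀ ij c, Rr (some ij) c = (DP hL (δ ij.1) (ψ ij.2) (X c)).eval 1 := by
    intro ij c
    rw [hRr]
  have hdetS : (Matrix.of fun ρ' i => Rr (ρ ρ') (S0 i)).det ≠ 0 := by
    rw [← Matrix.det_transpose]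
    have h1 : (Matrix.of fun ρ' i => Rr (ρ ρ') (S0 i)).transpose =
        Matrix.of fun c i : Fin (m + 1) => rowJ hL aa δ ψ (ρ i) (Fin.castSucc c) := by
      ext c i
      rw [Matrix.transpose_apply, Matrix.of_apply, Matrix.of_apply]
      rcases ρ i with _ | ij
      · rw [hR0]
        show _ = (aa (Fin.castSucc c)).eval 1
        rw [haac]
      · rw [hRs]
        show _ = (DP hL (δ ij.1) (ψ ij.2) (aa (Fin.castSucc c))).eval 1
        rw [haac]
    rw [h1]
    exact hρ
  have h1d : 1 ≤ d := by omega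
  have hsum0 : ∀ (H : MvPolynomial (Fin (m + 1 + s)) ℚ) (h0 : ℕ), H.IsHomogeneous h0 →
      ∑ c, Rr none c * aeval (fun c => (X c).eval 1) (pderiv c H) =
      (h0 : GG) * (aeval X H).eval 1 := by
    intro H h0 hH
    have h1 := congrArg (aeval (fun c => (X c).eval 1)) hH.sum_X_mul_pderiv
    rw [map_sum, map_nsmul, nsmul_eq_mul, ← eval_aeval] at h1
    rw [← h1]
    refine Finset.sum_congr rfl fun c _ => ?_
    rw [hR0, map_mul, aeval_X]
  have hsums : ∀ (H : MvPolynomial (Fin (m + 1 + s)) ℚ) (h0 : ℕ), H.IsHomogeneous h0 →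
      h0 ≤ d → ∀ ij, ∑ c, Rr (some ij) c * aeval (fun c => (X c).eval 1) (pderiv c H) =
      (DP hL (δ ij.1) (ψ ij.2) (aeval X H)).eval 1 := by
    intro H h0 hH hhd ij
    rw [chain hb hs X hX H hH hhd]
    refine Finset.sum_congr rfl fun c _ => ?_
    rw [hRs, mul_comm]
  -- the equations
  have hf1 : ∀ j, aeval (fun c => (X c).eval 1) (f j) = 0 := by
    intro j
    rw [hxe, aeval_gmn, ← gm_zero]
    congr 1
    funext t
    exact hfA j t
  have hfX : ∀ j, aeval X (f j) = 0 := by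
    intro j
    refine (lift_aeval X hX (f j) (hf j)).eq_zero hcs hb hbi hs (hd2 j) ?_
    rw [eval_aeval, hf1]
  have hftan : ∀ j' j, ∑ c, Rr j' c * aeval (fun c => (X c).eval 1) (pderiv c (f j)) = 0 := by
    intro j' j
    rcases j' with _ | ij
    · rw [hsum0 _ _ (hf j), hfX, Polynomial.eval_zero, mul_zero]
    · rw [hsums _ _ (hf j) (hd2 j), hfX]
      simp [DP]
  have hFG : ∀ i j, (aeval X (F i j)).eval 1 = (K i j).eval 1 *
      mon (fun l => (Y l).eval 1) (ex i) := by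
    intro i j
    rw [hF1, ← ha1, Polynomial.eval_mul, hP1]
    ring
  -- the derivatives of the forms
  obtain ⟨Y', hY'⟩ : ∃ Y' : Option (Fin m × Fin q) → Fin k → GG, Y' = fun j' l =>
      (match j' with
        | none => 0
        | some ij => (DP hL (δ ij.1) (ψ ij.2) (Y l)).eval 1) := ⟨_, rfl⟩
  obtain ⟨C', hC'⟩ : ∃ C' : Option (Fin m × Fin q) → Fin N → Fin w → GG, C' = fun j' i j =>
      (match j' with
        | none => (dd i j : GG) * (K i j).eval 1
        | some ij => (DP hL (δ ij.1) (ψ ij.2) (K i j)).eval 1) := ⟨_, rfl⟩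
  have hY'q : ∀ j' l, QI b L (Y' j' l) := by
    intro j' l
    rw [hY']
    rcases j' with _ | ij
    · exact QI.of_KK hb hL (KK L hL).zero_mem
    · exact DP_qi hb hs h1d (hY l)
  have hC'q : ∀ j' i j, QI b L (C' j' i j) := by
    intro j' i j
    rw [hC']
    rcases j' with _ | ij
    · exact QI.mul hb (QI.of_KK hb hL (natCast_mem _ _)) ((hKL i j).qi hb hs)
    · refine DP_qi hb hs ?_ (hKL i j)
      have := hdeg i
      omega
  have hRF : ∀ j' i j, ∑ c, Rr j' c * aeval (fun c => (X c).eval 1) (pderiv c (F i j)) =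
      ∑ l, ((K i j).eval 1 * (ex i l : GG) * mon (fun l => (Y l).eval 1)
        (fun l' => ex i l' - if l' = l then 1 else 0)) * Y' j' l +
        mon (fun l => (Y l).eval 1) (ex i) * C' j' i j := by
    intro j' i j
    rw [hY', hC']
    rcases j' with _ | ij
    · rw [hsum0 _ _ (hF i j), hFG]
      simp only [mul_zero, Finset.sum_const_zero, zero_add]
      ring
    · rw [hsums _ _ (hF i j) (by have := hQle i j; omega), hDrel]
      rw [DP_mul hb hs (by rw [hdeg i]; exact hd) (hPL i) (hKL i j), Polynomial.eval_add,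
        Polynomial.eval_mul, Polynomial.eval_mul, hP1]
      have h1 : (DP hL (δ ij.1) (ψ ij.2) (P i)).eval 1 = ∑ l, (ex i l : GG) *
          mon (fun l => (Y l).eval 1) (fun l' => ex i l' - if l' = l then 1 else 0) *
          (DP hL (δ ij.1) (ψ ij.2) (Y l)).eval 1 := by
        rw [hP]
        exact DP_mon hb hs Y hY Finset.univ (ex i) (by have := hFle i; omega)
      rw [h1, Finset.sum_mul]
      congr 1
      refine Finset.sum_congr rfl fun l _ => ?_
      ring
  have hRq : ∀ j' c, QI b L (Rr j' c) := by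
    intro j' c
    rcases j' with _ | ij
    · rw [hR0]
      exact (hX c).qi hb hs
    · rw [hRs]
      exact DP_qi hb hs h1d (hX c)
  have hRd : ∀ j' c v, Dom b L v (Rr j' c) ((X c).eval 1) := by
    intro j' c v
    rcases j' with _ | ij
    · rw [hR0]
      exact Dom.refl hb hL v _
    · rw [hRs]
      exact DP_dom hnc hb hbi hs h1d (hX c) v
  have hRFd : ∀ j' i j v, Dom b L v
      (∑ c, Rr j' c * aeval (fun c => (X c).eval 1) (pderiv c (F i j)))
      (aeval (fun c => (X c).eval 1) (F i j)) := by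
    intro j' i j v
    rcases j' with _ | ij
    · rw [hsum0 _ _ (hF i j), ← eval_aeval]
      exact Dom.smul hb hbi hL (natCast_mem _ _) (Dom.refl hb hL v _)
    · rw [hsums _ _ (hF i j) (by have := hQle i j; omega), ← eval_aeval]
      exact DP_dom hnc hb hbi hs (by have := hQle i j; omega) (hFL i j) v
  -- a vanishing minor
  have hzero : ∀ J0 : Fin (m + 1) → Fin (m + 1 + s), ¬ Function.Injective J0 →
      (Matrix.of fun ρ' i => Rr (ρ ρ') (J0 i)).det = 0 := by
    intro J0 hJ0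
    rw [Function.not_injective_iff] at hJ0
    obtain ⟨i, i', h1, h2⟩ := hJ0
    refine Matrix.det_zero_of_column_eq h2 fun k => ?_
    rw [Matrix.of_apply, Matrix.of_apply, h1]
  refine ⟨fun ρ' c => Rr (ρ ρ') c, hdetS, fun ρ' j => ?_, fun J0 => ?_, ?_⟩
  · rw [← hxe]
    exact hftan _ _
  · by_cases hJ0 : Function.Injective J0
    · obtain ⟨π, hπ⟩ := exists_enum J0 hJ0
      obtain ⟨Ω, hΩ, h1⟩ := qiPartT f F hb hL hNC x hgcd (by rw [← hxe]; exact hf1)
        (fun ρ' c => Rr (ρ ρ') c) π (fun ρ' c => hRq _ _)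
        (fun l => (Y l).eval 1) (fun l => (hY l).qi hb hs) ex
        (fun i j => (K i j).eval 1) (fun i j => (hKL i j).qi hb hs)
        (fun i j => by rw [← hxe, ← eval_aeval, hFG])
        (fun ρ' j => by rw [← hxe]; exact hftan _ _)
        (fun ρ' l => Y' (ρ ρ') l) (fun ρ' l => hY'q _ _)
        (fun ρ' i j => C' (ρ ρ') i j) (fun ρ' i j => hC'q _ _ _)
        (fun ρ' i j => by rw [← hxe]; exact hRF _ _ _)
      refine ⟨Ω, hΩ, ?_⟩
      rw [← hmon, ← h1]
      simp only [hπ]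
    · exact ⟨0, QI.of_KK hb hL (KK L hL).zero_mem, by rw [hzero J0 hJ0, mul_zero]⟩
  · intro J0 v a Jv ha hF0 hJv ε1 hε1
    by_cases hJ0 : Function.Injective J0
    · obtain ⟨π, hπ⟩ := exists_enum J0 hJ0
      have hXa : (X a).eval 1 ≠ 0 := by
        rw [hx, gm_ne_zero]
        filter_upwards [ha] with t ht h0
        have hall : ∀ c, x c t = 0 := by
          intro c
          by_contra h2
          have h3 := av_pos hb v (q := (x c t : ℚ)) (by exact_mod_cast h2)
          have h4 := ht c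
          rw [h0, av_zero hb] at h4
          linarith
        have h5 := hgcd t
        have h6 : Finset.univ.gcd (fun c => x c t) = 0 :=
          Finset.gcd_eq_zero_iff.2 fun c _ => hall c
        rw [h6] at h5
        exact zero_ne_one h5
      have hFx : ∀ i j, aeval (fun c => (X c).eval 1) (F i j) =
          gm (fun t => aeval (fun c => (x c t : ℚ)) (F i j)) := by
        intro i j
        rw [← eval_aeval, hF1]
      have h1 := domPart f F hb hbi hL hf hF hNC v (fun c => (X c).eval 1) a hXa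
        (fun c => by
          simp only [hx]
          exact dom_of_le hb hL v (x a) (x c) (ha.mono fun t ht => ht c))
        hf1 (fun ρ' c => Rr (ρ ρ') c) π (fun ρ' c => hRd _ _ v) (fun ρ' j => hftan _ _) Jv
        (fun i => by
          rw [hFx, gm_ne_zero]
          exact hF0.mono fun t ht => ht i)
        (fun i j => by
          rw [hFx, hFx]
          simp only [hx]
          rw [gm_pow, gm_pow, gm_mul, gm_mul, dom_gm]
          intro ε2 hε2
          filter_upwards [hJv, L_nonneg hL] with t ht hLt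
          rw [av_mul hb, av_mul hb, av_pow hb, av_pow hb]
          refine (ht i j).trans ?_
          have h4 : 1 ≤ Real.exp (ε2 * L t) := Real.one_le_exp (mul_nonneg hε2.le hLt)
          exact le_mul_of_one_le_left (mul_nonneg (av_nonneg hb _ _)
            (pow_nonneg (av_nonneg hb _ _) _)) h4)
        (fun ρ' i j => hRFd _ _ _ v)
      have e1 : (∏ i, aeval (fun c => (X c).eval 1) (F i (Jv i))) =
          gm (fun t => ∏ i, aeval (fun c => (x c t : ℚ)) (F i (Jv i))) := by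
        rw [← gm_prod']
        exact Finset.prod_congr rfl fun i _ => hFx _ _
      rw [e1] at h1
      simp only [hx, hπ] at h1
      rw [← gm_rep (Matrix.of fun ρ' i => Rr (ρ ρ') (J0 i)).det] at h1
      simp only [gm_pow, gm_mul] at h1
      rw [dom_gm] at h1
      filter_upwards [h1 ε1 hε1] with t h2
      simp only [av_mul hb, av_pow hb, av_prod hb] at h2
      exact h2
    · filter_upwards [rep_zero] with t ht
      rw [hzero J0 hJ0, ht, av_zero hb, zero_mul]
      exact mul_nonneg (Real.exp_pos _).le (mul_nonneg (pow_nonneg (av_nonneg hb _ _) _)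
        (Finset.prod_nonneg fun i _ => av_nonneg hb _ _))

end

end Pool.Agent.Y731.GV
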