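import Mathlib
import Pool.Agent.Y731.GV.Tab

/-!
# The Gauss map and the table of tangent vectors
-/

set_option autoImplicit false
set_option linter.unusedSectionVars false
set_option linter.unusedVariables false

namespace Pool.Agent.Y731.GV

open Filter Topology Pool.Agent.TH932.Germs Pool.Agent.TH551.SU Pool.Agent.TH551.ZP
open Pool.Agent.TH551.SU.CRV Pool.Agent.TH551.ZP.GT MvPolynomial Pool.Agent.TH551.HA
open Pool.Agent.TH551.HA.Ci (Cov GM exchange grad gradAt aeval_GM EI colW cov_prod aeval_mem bI)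
open Pool.Agent.TH551.HA.P1 (DP_sum rat_mem DP_const AQ AD qi_int dom_of_le)
open Pool.Agent.TH551.HA.Ci (aeval_gmn)

section

variable {n g s N w : ℕ} (f : Fin g → MvPolynomial (Fin n) ℚ)
  (F : Fin N → Fin w → MvPolynomial (Fin n) ℚ) {K : Type} [Field K] [Algebra ℚ K]

/-- independent gradients and their dual vectors at a nonzero point -/
theorem exists_dual (hNC : SNC f F s) (x : Fin n → K) (hfx : ∀ j, aeval x (f j) = 0)
    (c0 : Fin n) (hc0 : x c0 ≠ 0) : ∃ (T : Fin s → Fin g) (V : Fin s → Fin n → K),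
      ∀ j' j, ∑ c, V j' c * aeval x (pderiv c (f (T j))) = if j' = j then 1 else 0 := by
  classical
  obtain ⟨m, hm⟩ := null_n f F hNC ∅ c0
  by_cases hex : ∃ (T : Fin s → Fin g) (J : Fin N → Fin w) (φ : Fin n → Option (Fin s ⊕ Fin N)),
      Cov φ (EI s (∅ : Finset (Fin N)) : Set (Fin s ⊕ Fin N)) ∧
      (GM (gradAt (fun a => f (T a)) (fun i => F i (J i)) x) φ).det ≠ 0
  · obtain ⟨T, J, φ, hφ, hdet⟩ := hex
    have hcov : ∀ j, ∃ c, φ c = some (Sum.inl j) := fun j =>
      (hφ.2 (Sum.inl j)).1 (by simp [EI])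
    choose cc hcc using hcov
    set G := GM (gradAt (fun a => f (T a)) (fun i => F i (J i)) x) φ with hG
    refine ⟨T, fun j c => G⁻¹ (cc j) c, fun j' j => ?_⟩
    have h1 : G⁻¹ * G = 1 := Matrix.nonsing_inv_mul G (isUnit_iff_ne_zero.2 hdet)
    have h2 := congrFun (congrFun h1 (cc j')) (cc j)
    rw [Matrix.mul_apply, Matrix.one_apply] at h2
    have h3 : ∀ c, G c (cc j) = aeval x (pderiv c (f (T j))) := by
      intro c
      rw [hG]
      simp [GM, hcc, gradAt]
    simp only [h3] at h2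
    rw [h2]
    by_cases h4 : j' = j
    · subst h4
      rw [if_pos rfl, if_pos rfl]
    · rw [if_neg h4, if_neg]
      intro h5
      apply h4
      have h6 := hcc j'
      rw [h5, hcc j] at h6
      exact (Sum.inl_injective (Option.some.inj h6)).symm
  · exfalso
    push Not at hex
    have hle : Ideal.span ((Set.range f ∪ {h | ∃ i ∈ (∅ : Finset (Fin N)), ∃ j, h = F i j}) ∪
        {h | ∃ (T : Fin s → Fin g) (J : Fin N → Fin w) (φ : Fin n → Option (Fin s ⊕ Fin N)),
          Cov φ (EI s (∅ : Finset (Fin N)) : Set (Fin s ⊕ Fin N)) ∧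
          h = (GM (grad (fun a => f (T a)) (fun i => F i (J i))) φ).det}) ≤
          RingHom.ker (aeval x : MvPolynomial (Fin n) ℚ →ₐ[ℚ] K) := by
      rw [Ideal.span_le]
      rintro h ((⟨j, rfl⟩ | ⟨i, hi, j, rfl⟩) | ⟨T, J, φ, hφ, rfl⟩)
      · exact hfx j
      · simp at hi
      · show aeval x _ = 0
        rw [aeval_GM]
        exact hex T J φ hφ
    have h1 : aeval x ((X c0 : MvPolynomial (Fin n) ℚ) ^ m) = 0 := hle hm
    rw [map_pow, aeval_X] at h1
    exact pow_ne_zero _ hc0 h1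

/-- the vectors orthogonal to the gradients are combinations of a basis -/
theorem comb {k t : ℕ} (v V : Fin t → Fin (k + t) → K)
    (hV : ∀ j' j, ∑ c, V j' c * v j c = if j' = j then 1 else 0)
    (A R : Fin k → Fin (k + t) → K) (hA : LinearIndependent K A)
    (hA0 : ∀ ρ j, ∑ c, A ρ c * v j c = 0) (hR0 : ∀ ρ j, ∑ c, R ρ c * v j c = 0) :
    ∃ Q : Matrix (Fin k) (Fin k) K, ∀ ρ c, R ρ c = ∑ ρ', Q ρ ρ' * A ρ' c := by
  classical
  let M : (Fin (k + t) → K) →ₗ[K] (Fin t → K) :=
    { toFun := fun u j => ∑ c, u c * v j c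
      map_add' := fun u u' => by
        funext j
        simp only [Pi.add_apply, add_mul, Finset.sum_add_distrib]
      map_smul' := fun a u => by
        funext j
        simp only [Pi.smul_apply, smul_eq_mul, RingHom.id_apply, Finset.mul_sum, mul_assoc] }
  have hM : ∀ u j, M u j = ∑ c, u c * v j c := fun u j => rfl
  have hsurj : Function.Surjective M := by
    intro y
    refine ⟨∑ j', y j' • V j', ?_⟩
    rw [map_sum]
    funext j
    rw [Finset.sum_apply]
    have h1 : ∀ j', M (y j' • V j') j = if j' = j then y j' else 0 := by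
      intro j'
      rw [map_smul, Pi.smul_apply, smul_eq_mul, hM, hV]
      split_ifs <;> simp
    rw [Finset.sum_congr rfl fun j' _ => h1 j']
    simp
  have hfin : Module.finrank K (LinearMap.ker M) = k := by
    have h1 := LinearMap.finrank_range_add_finrank_ker M
    rw [LinearMap.range_eq_top.2 hsurj, finrank_top, Module.finrank_fin_fun,
      Module.finrank_fin_fun] at h1
    omega
  have hAk : ∀ ρ, A ρ ∈ LinearMap.ker M := fun ρ => by
    rw [LinearMap.mem_ker]
    funext j
    exact hA0 ρ j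
  have hRk : ∀ ρ, R ρ ∈ LinearMap.ker M := fun ρ => by
    rw [LinearMap.mem_ker]
    funext j
    exact hR0 ρ j
  let A' : Fin k → LinearMap.ker M := fun ρ => ⟨A ρ, hAk ρ⟩
  have hA' : LinearIndependent K A' := by
    refine LinearIndependent.of_comp (LinearMap.ker M).subtype ?_
    exact hA
  have hspan := hA'.span_eq_top_of_card_eq_finrank' (by rw [hfin, Fintype.card_fin])
  have h1 : ∀ ρ, ∃ q : Fin k → K, ∑ ρ', q ρ' • A' ρ' = ⟨R ρ, hRk ρ⟩ := fun ρ =>
    (Submodule.mem_span_range_iff_exists_fun K).1 (by rw [hspan]; exact Submodule.mem_top)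
  choose Q hQ using h1
  refine ⟨Matrix.of Q, fun ρ c => ?_⟩
  have h2 := congrArg (fun u : LinearMap.ker M => (u : Fin (k + t) → K) c) (hQ ρ)
  simp only [Submodule.coe_sum, Submodule.coe_smul, Finset.sum_apply, Pi.smul_apply,
    smul_eq_mul] at h2
  rw [← h2]
  rfl

end

section

variable {s' : ℕ} {b : Fin s' → ℕ} {L : ℕ → ℝ}

/-- germs of determinants -/
theorem det_gm {k : ℕ} (a : Fin k → Fin k → ℕ → ℚ) :
    (Matrix.of fun i j => gm (a i j)).det = gm (fun t => (Matrix.of fun i j => a i j t).det) := by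
  have h1 : (Matrix.of fun i j => gm (a i j)) =
      (Filter.Germ.coeRingHom (UU : Filter ℕ) : (ℕ → ℚ) →+* GG).mapMatrix
        (Matrix.of fun i j => a i j) := by
    ext i j
    rfl
  rw [h1, ← RingHom.map_det]
  show gm _ = _
  congr 1
  funext t
  have h2 := RingHom.map_det (Pi.evalRingHom (fun _ : ℕ => ℚ) t) (Matrix.of fun i j => a i j)
  exact h2

/-- the gcd at a prime -/
theorem av_gcd_le' (hb : ∀ v, (b v).Prime) (v : Fin s') {ι : Type} [Fintype ι] [Nonempty ι]
    (A : ι → ℤ) : ∃ j, av b (some v) ((Finset.univ.gcd A : ℤ) : ℚ) ≤ av b (some v) (A j : ℚ) := by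
  classical
  have := Fact.mk (hb v)
  obtain ⟨j, hmax⟩ := Finite.exists_max fun j => padicNorm (b v) (A j : ℚ)
  refine ⟨j, ?_⟩
  simp only [av]
  obtain ⟨c, hc⟩ := exists_gcd_comb Finset.univ A
  have h1 : ((Finset.univ.gcd A : ℤ) : ℚ) = ∑ i, (c i : ℚ) * (A i : ℚ) := by
    rw [← hc]; push_cast; rfl
  rw [h1]
  have h2 : padicNorm (b v) (∑ i, (c i : ℚ) * (A i : ℚ)) ≤ padicNorm (b v) (A j : ℚ) := by
    refine padicNorm.sum_le Finset.univ_nonempty fun i _ => ?_
    rw [padicNorm.mul]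
    calc padicNorm (b v) (c i : ℚ) * padicNorm (b v) (A i : ℚ) ≤ 1 * padicNorm (b v) (A i : ℚ) :=
          mul_le_mul_of_nonneg_right (padicNorm.of_int _) (padicNorm.nonneg _)
      _ = _ := one_mul _
      _ ≤ _ := hmax i
  exact_mod_cast h2

end

end Pool.Agent.Y731.GV
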