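import Mathlib
import Pool.Agent.Y731.GV.Gau

/-!
# Normal crossings divisors on smooth projective varieties, the inequality for germs
-/

set_option autoImplicit false
set_option linter.unusedSectionVars false
set_option linter.unusedVariables false

namespace Pool.Agent.Y731.GV

open Filter Topology Pool.Agent.TH932.Germs Pool.Agent.TH551.SU Pool.Agent.TH551.ZP
open Pool.Agent.TH551.SU.CRV Pool.Agent.TH551.ZP.GT MvPolynomial Pool.Agent.TH551.HA
open Pool.Agent.TH551.HA.P1 (DP_sum rat_mem DP_const AQ AD qi_int dom_of_le)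
open Pool.Agent.TH551.HA.Ci (aeval_gmn)

section

variable {s' : ℕ} {b : Fin s' → ℕ} {L : ℕ → ℝ} {r : ℕ} {hL : Tendsto L atTop atTop}
  {U : Fin (r + 1) → GG} {l : Fin (r + 1) → ℕ} {d : ℕ}

/-- maximal minors of an integer matrix -/
def mnr {M k : ℕ} (A : Matrix (Fin M) (Fin k) ℤ) (J : Fin k → Fin M) : ℤ := (A.submatrix J id).det

/-- the places together: `W J = D * minor J`, `D * gcd = P * Ω` -/
theorem places {ι : Type} [Fintype ι] [Nonempty ι] (hb : ∀ v, (b v).Prime) (mn : ι → ℤ)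
    (D P Ω : ℚ) (B : Option (Fin s') → ℝ) (e1 : ℝ) (he1 : 0 ≤ e1)
    (hgd : Finset.univ.gcd mn ≠ 0) (hΛ : D * ((Finset.univ.gcd mn : ℤ) : ℚ) = P * Ω)
    (hlow : e1 ≤ ∏ v, av b v Ω) (hB : ∀ v J, av b v (D * (mn J : ℚ)) ≤ B v) :
    e1 * ((∏ v, av b v P) * (((Finset.univ.sup fun J => (mn J).natAbs : ℕ) : ℝ) /
      ((Finset.univ.gcd mn : ℤ) : ℝ))) ≤ ∏ v, B v := by
  classical
  obtain ⟨gd, hgdd⟩ : ∃ gd : ℤ, gd = Finset.univ.gcd mn := ⟨_, rfl⟩
  rw [← hgdd] at hgd hΛ ⊢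
  have hgd0 : 0 < gd := by
    have h1 : 0 ≤ Finset.univ.gcd mn :=
      Int.nonneg_of_normalize_eq_self (Finset.normalize_gcd (s := (Finset.univ : Finset ι)))
    rw [← hgdd] at h1
    exact lt_of_le_of_ne h1 (Ne.symm hgd)
  obtain ⟨J0, -, hJ0⟩ := Finset.exists_mem_eq_sup (Finset.univ : Finset ι)
    Finset.univ_nonempty (fun J => (mn J).natAbs)
  rw [hJ0]
  have hgdR : (0 : ℝ) < (gd : ℝ) := by exact_mod_cast hgd0
  have hfin : ∀ v : Fin s', av b (some v) D * av b (some v) (gd : ℚ) ≤ B (some v) := by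
    intro v
    obtain ⟨j, hj⟩ := av_gcd_le' hb v mn
    rw [← hgdd] at hj
    have h1 := hB (some v) j
    rw [av_mul hb] at h1
    exact (mul_le_mul_of_nonneg_left hj (av_nonneg hb _ _)).trans h1
  have hinf : av b none D * ((mn J0).natAbs : ℝ) ≤ B none := by
    have h1 := hB none J0
    rw [av_mul hb] at h1
    have h2 : av b none (mn J0 : ℚ) = ((mn J0).natAbs : ℝ) := by
      simp only [av]
      rw [Nat.cast_natAbs, Int.cast_abs]
      push_cast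
      rfl
    rwa [h2] at h1
  have hg : av b none (gd : ℚ) = (gd : ℝ) := by
    simp only [av]
    push_cast
    exact abs_of_pos hgdR
  have hprod : (∏ v, av b v P) * ∏ v, av b v Ω = ∏ v, (av b v D * av b v (gd : ℚ)) := by
    rw [← Finset.prod_mul_distrib]
    refine Finset.prod_congr rfl fun v _ => ?_
    rw [← av_mul hb, ← hΛ, av_mul hb]
  have hP0 : 0 ≤ ∏ v, av b v P := Finset.prod_nonneg fun v _ => av_nonneg hb _ _
  have hM0 : (0 : ℝ) ≤ ((mn J0).natAbs : ℝ) / (gd : ℝ) := by positivity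
  calc e1 * ((∏ v, av b v P) * (((mn J0).natAbs : ℝ) / (gd : ℝ)))
      ≤ (∏ v, av b v Ω) * ((∏ v, av b v P) * (((mn J0).natAbs : ℝ) / (gd : ℝ))) :=
        mul_le_mul_of_nonneg_right hlow (mul_nonneg hP0 hM0)
    _ = ((∏ v, av b v P) * ∏ v, av b v Ω) * (((mn J0).natAbs : ℝ) / (gd : ℝ)) := by ring
    _ = (∏ v, (av b v D * av b v (gd : ℚ))) * (((mn J0).natAbs : ℝ) / (gd : ℝ)) := by rw [hprod]
    _ = (av b none D * ((mn J0).natAbs : ℝ)) * ∏ v : Fin s',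
          (av b (some v) D * av b (some v) (gd : ℚ)) := by
        rw [Fintype.prod_option, hg]
        field_simp
    _ ≤ B none * ∏ v : Fin s', B (some v) := by
        refine mul_le_mul hinf (Finset.prod_le_prod (fun v _ => mul_nonneg (av_nonneg hb _ _)
          (av_nonneg hb _ _)) fun v _ => hfin v) (Finset.prod_nonneg fun v _ =>
            mul_nonneg (av_nonneg hb _ _) (av_nonneg hb _ _)) ?_
        exact (mul_nonneg (av_nonneg hb _ _) (Nat.cast_nonneg _)).trans hinf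
    _ = ∏ v, B v := by rw [Fintype.prod_option]

/-- **the inequality for germs** -/
theorem gvGerm (hnc : NcStmt) (hcs : CSStmt) (hb : ∀ v, (b v).Prime)
    (hbi : Function.Injective b) (hs : Setup b hL U l d) (hU0 : U 0 = 1) {m s g N w : ℕ} (k : ℕ)
    (f : Fin g → MvPolynomial (Fin (m + 1 + s)) ℚ) (ee : Fin g → ℕ)
    (hf : ∀ j, (f j).IsHomogeneous (ee j))
    (F : Fin N → Fin w → MvPolynomial (Fin (m + 1 + s)) ℚ) (dd : Fin N → Fin w → ℕ)
    (hF : ∀ i j, (F i j).IsHomogeneous (dd i j)) (hNC : SNC f F s)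
    (ex : Fin N → Fin k → ℕ)
    (hd : 1 + (∑ i, ∑ l, ex i l + ∑ i, ∑ j, dd i j) ≤ d) (hd2 : ∀ j, ee j ≤ d)
    (X : Fin (m + 1 + s) → Polynomial GG) (hX : ∀ i, Lift hL U l 1 (X i))
    (x : Fin (m + 1 + s) → ℕ → ℤ) (hx : ∀ i, (X i).eval 1 = gm (fun t => (x i t : ℚ)))
    (Y : Fin k → Polynomial GG) (hY : ∀ i, Lift hL U l 1 (Y i)) (y : Fin k → ℕ → ℤ)
    (hy : ∀ i, (Y i).eval 1 = gm (fun t => (y i t : ℚ)))
    (CL : Fin N → Fin w → Polynomial GG) (hCL : ∀ i j, Lift hL U l 1 (CL i j))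
    (cc : Fin N → Fin w → ℕ → ℤ)
    (hcc : ∀ i j, (CL i j).eval 1 = gm (fun t => (cc i j t : ℚ)))
    (hfA : ∀ j t, aeval (fun c => (x c t : ℚ)) (f j) = 0)
    (hFA : ∀ i j t, aeval (fun c => (x c t : ℚ)) (F i j) =
      ((cc i j t * ∏ l, y l t ^ (ex i l) : ℤ) : ℚ))
    (hgcd : ∀ t, Finset.univ.gcd (fun c => x c t) = 1) (S0 : Fin (m + 1) → Fin (m + 1 + s))
    (hgen : ∀ G : MvPolynomial (Fin (m + 1)) ℚ, (∃ e, G.IsHomogeneous e) → G ≠ 0 →
      aeval (fun i : Fin (m + 1) => gm (fun t => (x (S0 i) t : ℚ))) G ≠ 0)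
    (A : ℕ → Matrix (Fin (m + 1 + s)) (Fin (m + 1)) ℤ)
    (hAli : ∀ t, ∀ κ : Fin (m + 1) → ℚ, (∀ c, ∑ ρ, κ ρ * (A t c ρ : ℚ) = 0) → ∀ ρ, κ ρ = 0)
    (hAt : ∀ t ρ j, ∑ c, (A t c ρ : ℚ) * aeval (fun c => (x c t : ℚ)) (pderiv c (f j)) = 0)
    (a : Option (Fin s') → Fin (m + 1 + s)) (J : Option (Fin s') → Fin N → Fin w)
    (ha : ∀ v, ∀ᶠ t in (UU : Filter ℕ), ∀ c, av b v (x c t : ℚ) ≤ av b v (x (a v) t : ℚ))
    (hF0 : ∀ v, ∀ᶠ t in (UU : Filter ℕ), ∀ i, aeval (fun c => (x c t : ℚ)) (F i (J v i)) ≠ 0)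
    (hJ : ∀ v, ∀ᶠ t in (UU : Filter ℕ), ∀ i j, av b v (aeval (fun c => (x c t : ℚ)) (F i j)) *
            av b v (x (a v) t : ℚ) ^ dd i (J v i) ≤
            av b v (aeval (fun c => (x c t : ℚ)) (F i (J v i))) *
            av b v (x (a v) t : ℚ) ^ dd i j) (ε : ℝ) (hε : 0 < ε) :
    ∀ᶠ t in (UU : Filter ℕ), mnr (A t) S0 ≠ 0 ∧
        (∏ v, av b v ((∏ l, y l t ^ (exc ex Finset.univ l) : ℤ) : ℚ)) *
        (((Finset.univ.sup fun J : Fin (m + 1) → Fin (m + 1 + s) => (mnr (A t) J).natAbs : ℕ) : ℝ) /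
          ((Finset.univ.gcd fun J : Fin (m + 1) → Fin (m + 1 + s) => mnr (A t) J : ℤ) : ℝ)) ≤
      Real.exp (ε * L t) * ∏ v, (av b v (x (a v) t : ℚ) ^ (m + 1) /
        av b v (x (a v) t : ℚ) ^ (∑ i, dd i (J v i)) *
          ∏ i, av b v (aeval (fun c => (x c t : ℚ)) (F i (J v i)))) := by
  classical
  obtain ⟨R, hdet, htan, hqi, hdom⟩ := gvTable hnc hcs hb hbi hs hU0 k f ee hf F dd hF hNC ex
    hd hd2 X hX x hx Y hY y hy CL hCL cc hcc hfA hFA hgcd S0 hgen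
  have hs2 : (0 : ℝ) < (s' : ℝ) + 2 := by positivity
  obtain ⟨ε1, hε1⟩ : ∃ ε1 : ℝ, ε1 = ε / (s' + 2) := ⟨_, rfl⟩
  have hε1' : 0 < ε1 := by rw [hε1]; positivity
  -- the matrix `A` as germs
  obtain ⟨A', hA'⟩ : ∃ A' : Fin (m + 1) → Fin (m + 1 + s) → GG,
      A' = fun ρ c => gm (fun t => (A t c ρ : ℚ)) := ⟨_, rfl⟩
  have hAlin : LinearIndependent GG A' := by
    rw [Fintype.linearIndependent_iff]
    intro κ hκ ρ
    have h1 : ∀ c, ∑ ρ, κ ρ * A' ρ c = 0 := by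
      intro c
      have := congrFun hκ c
      simpa [Finset.sum_apply] using this
    have h2 : ∀ c, ∀ᶠ t in (UU : Filter ℕ), ∑ ρ, rep (κ ρ) t * (A t c ρ : ℚ) = 0 := by
      intro c
      have h3 := h1 c
      have h4 : ∀ ρ, κ ρ * A' ρ c = gm (fun t => rep (κ ρ) t * (A t c ρ : ℚ)) := by
        intro ρ
        rw [hA', ← gm_mul, gm_rep]
      rw [Finset.sum_congr rfl fun ρ _ => h4 ρ, gm_sum', ← gm_zero, gm_eq] at h3
      exact h3
    have h3 : ∀ᶠ t in (UU : Filter ℕ), rep (κ ρ) t = 0 := by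
      filter_upwards [eventually_all.2 h2] with t ht
      exact hAli t (fun ρ => rep (κ ρ) t) ht ρ
    rw [← gm_rep (κ ρ), ← gm_zero, gm_eq]
    exact h3
  have hX00 : gm (fun t => (x (S0 0) t : ℚ)) ≠ 0 := by
    have h := hgen (MvPolynomial.X 0) ⟨1, MvPolynomial.isHomogeneous_X _ _⟩
      (MvPolynomial.X_ne_zero _)
    rwa [aeval_X] at h
  have hfx : ∀ j, aeval (fun c => gm (fun t => (x c t : ℚ))) (f j) = 0 := by
    intro j
    rw [aeval_gmn, ← gm_zero]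
    congr 1
    funext t
    exact hfA j t
  obtain ⟨T, V, hV⟩ := exists_dual f F hNC (fun c => gm (fun t => (x c t : ℚ))) hfx (S0 0) hX00
  have hA0 : ∀ ρ j, ∑ c, A' ρ c *
      aeval (fun c => gm (fun t => (x c t : ℚ))) (pderiv c (f (T j))) = 0 := by
    intro ρ j
    rw [hA']
    simp only [aeval_gmn, gm_mul]
    rw [gm_sum', ← gm_zero]
    congr 1
    funext t
    exact hAt t ρ (T j)
  obtain ⟨Q, hQ⟩ := comb (fun j c => aeval (fun c => gm (fun t => (x c t : ℚ)))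
    (pderiv c (f (T j)))) V hV A' R hAlin hA0 (fun ρ j => htan ρ (T j))
  obtain ⟨D, hD⟩ : ∃ D, D = Q.det := ⟨_, rfl⟩
  have hW : ∀ J0 : Fin (m + 1) → Fin (m + 1 + s), (Matrix.of fun ρ i => R ρ (J0 i)).det =
      D * gm (fun t => (mnr (A t) J0 : ℚ)) := by
    intro J0
    have h1 : (Matrix.of fun ρ i => R ρ (J0 i)) =
        Q * Matrix.of fun ρ i => gm (fun t => (A t (J0 i) ρ : ℚ)) := by
      ext ρ i
      rw [Matrix.mul_apply, Matrix.of_apply, hQ]
      refine Finset.sum_congr rfl fun ρ' _ => ?_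
      rw [hA']
      rfl
    rw [h1, Matrix.det_mul, det_gm, hD]
    congr 2
    funext t
    unfold mnr
    rw [← Matrix.det_transpose, Int.cast_det]
    congr 1
  obtain ⟨gd, hgd⟩ : ∃ gd : ℕ → ℤ, gd = fun t =>
      Finset.univ.gcd fun J : Fin (m + 1) → Fin (m + 1 + s) => mnr (A t) J := ⟨_, rfl⟩
  choose u hu using fun t => exists_gcd_comb (Finset.univ : Finset (Fin (m + 1) → Fin (m + 1 + s)))
    (fun J => mnr (A t) J)
  choose Ω hΩ hΩeq using hqi
  obtain ⟨Pg, hPg⟩ : ∃ Pg : GG, Pg = gm (fun t => ((∏ l, y l t ^ (exc ex Finset.univ l) : ℤ) : ℚ)) := ⟨_, rfl⟩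
  obtain ⟨Ω', hΩ'⟩ : ∃ Ω', Ω' = ∑ J0, gm (fun t => (u t J0 : ℚ)) * Ω J0 := ⟨_, rfl⟩
  have hΩ'q : QI b L Ω' := by
    rw [hΩ']
    exact QI.sum hb hL _ _ fun J0 _ => QI.mul hb (qi_int hL fun t => u t J0) (hΩ J0)
  have hΛ : D * gm (fun t => (gd t : ℚ)) = Pg * Ω' := by
    have h1 : gm (fun t => (gd t : ℚ)) = ∑ J0 : Fin (m + 1) → Fin (m + 1 + s),
        gm (fun t => (u t J0 : ℚ)) * gm (fun t => (mnr (A t) J0 : ℚ)) := by
      simp only [gm_mul]
      rw [gm_sum']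
      congr 1
      funext t
      have h3 : gd t = ∑ J0, u t J0 * mnr (A t) J0 := by rw [hu t, hgd]
      rw [h3]
      push_cast
      rfl
    rw [h1, hΩ', Finset.mul_sum, Finset.mul_sum]
    refine Finset.sum_congr rfl fun J0 _ => ?_
    have h2 := hΩeq J0
    rw [hW J0, ← hPg] at h2
    linear_combination gm (fun t => (u t J0 : ℚ)) * h2
  have hD0 : D ≠ 0 := by
    intro h0
    apply hdet
    rw [hW S0, h0, zero_mul]
  have hmS0 : gm (fun t => (mnr (A t) S0 : ℚ)) ≠ 0 := by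
    intro h0
    apply hdet
    rw [hW S0, h0, mul_zero]
  have hgd0 : ∀ᶠ t in (UU : Filter ℕ), gd t ≠ 0 := by
    rw [gm_ne_zero] at hmS0
    filter_upwards [hmS0] with t ht h0
    rw [hgd] at h0
    have h1 := (Finset.gcd_eq_zero_iff.1 h0) S0 (Finset.mem_univ _)
    exact ht (by exact_mod_cast h1)
  have hΩ'0 : Ω' ≠ 0 := by
    intro h0
    rw [h0, mul_zero] at hΛ
    rcases mul_eq_zero.1 hΛ with h1 | h1
    · exact hD0 h1
    · have h2 : gm (fun t => (gd t : ℚ)) ≠ 0 := by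
        rw [gm_ne_zero]
        exact hgd0.mono fun t ht => by exact_mod_cast ht
      exact h2 h1
  -- at the indices
  have hWt : ∀ J0 : Fin (m + 1) → Fin (m + 1 + s), ∀ᶠ t in (UU : Filter ℕ),
      rep (Matrix.of fun ρ i => R ρ (J0 i)).det t = rep D t * (mnr (A t) J0 : ℚ) := by
    intro J0
    rw [hW J0]
    filter_upwards [rep_mul D (gm (fun t => (mnr (A t) J0 : ℚ))),
      rep_gm (fun t => (mnr (A t) J0 : ℚ))] with t h1 h2
    rw [h1, h2]
  have hΛt : ∀ᶠ t in (UU : Filter ℕ), rep D t * (gd t : ℚ) =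
      ((∏ l, y l t ^ (exc ex Finset.univ l) : ℤ) : ℚ) * rep Ω' t := by
    have h1 := rep_mul D (gm (fun t => (gd t : ℚ)))
    rw [hΛ] at h1
    filter_upwards [h1, rep_gm (fun t => (gd t : ℚ)), rep_mul Pg Ω',
      (by rw [hPg]; exact rep_gm _ : ∀ᶠ t in (UU : Filter ℕ), rep Pg t =
        ((∏ l, y l t ^ (exc ex Finset.univ l) : ℤ) : ℚ))] with t h2 h3 h4 h5
    rw [← h3, ← h2, h4, h5]
  have hxa : ∀ v, ∀ᶠ t in (UU : Filter ℕ), 0 < av b v (x (a v) t : ℚ) := by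
    intro v
    filter_upwards [ha v] with t ht
    by_contra h0
    have h1 : av b v (x (a v) t : ℚ) = 0 := le_antisymm (not_lt.1 h0) (av_nonneg hb _ _)
    have hall : ∀ c, x c t = 0 := by
      intro c
      by_contra h2
      have h3 := av_pos hb v (q := (x c t : ℚ)) (by exact_mod_cast h2)
      have h4 := ht c
      rw [h1] at h4
      linarith
    have h5 := hgcd t
    have h6 : Finset.univ.gcd (fun c => x c t) = 0 :=
      Finset.gcd_eq_zero_iff.2 fun c _ => hall c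
    rw [h6] at h5
    exact zero_ne_one h5
  filter_upwards [eventually_all.2 hWt, hΛt, hgd0, QI.lower hb hbi hL hΩ'q hΩ'0 ε1 hε1',
    eventually_all.2 hxa, eventually_all.2 fun J0 => eventually_all.2 fun v =>
      hdom J0 v (a v) (J v) (ha v) (hF0 v) (hJ v) ε1 hε1', gm_ne_zero.1 hmS0] with
      t h1 h2 h3 h4 h5 h6 h0
  refine ⟨fun h => h0 (by rw [h, Int.cast_zero]), ?_⟩
  have hgt : gd t = Finset.univ.gcd fun J : Fin (m + 1) → Fin (m + 1 + s) => mnr (A t) J := by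
    rw [hgd]
  rw [hgt] at h2 h3
  have key := places hb (fun J : Fin (m + 1) → Fin (m + 1 + s) => mnr (A t) J) (rep D t)
    ((∏ l, y l t ^ (exc ex Finset.univ l) : ℤ) : ℚ) (rep Ω' t)
    (fun v => Real.exp (ε1 * L t) * (av b v (x (a v) t : ℚ) ^ (m + 1) /
        av b v (x (a v) t : ℚ) ^ (∑ i, dd i (J v i)) *
          ∏ i, av b v (aeval (fun c => (x c t : ℚ)) (F i (J v i))))) _ (Real.exp_pos _).le
    h3 h2 h4 (fun v J0 => by
      rw [← h1 J0]
      have h7 := h6 J0 v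
      have h8 : 0 < av b v (x (a v) t : ℚ) ^ (∑ i, dd i (J v i)) := pow_pos (h5 v) _
      rw [div_mul_eq_mul_div, ← mul_div_assoc, le_div_iff₀ h8]
      exact h7)
  rw [Finset.prod_mul_distrib, Finset.prod_const, Finset.card_univ, Fintype.card_option,
    Fintype.card_fin] at key
  obtain ⟨lhs, hlhs⟩ : ∃ lhs, lhs = (∏ v, av b v ((∏ l, y l t ^ (exc ex Finset.univ l) : ℤ) : ℚ)) *
        (((Finset.univ.sup fun J : Fin (m + 1) → Fin (m + 1 + s) => (mnr (A t) J).natAbs : ℕ) : ℝ) /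
          ((Finset.univ.gcd fun J : Fin (m + 1) → Fin (m + 1 + s) => mnr (A t) J : ℤ) : ℝ)) :=
    ⟨_, rfl⟩
  rw [← hlhs] at key ⊢
  have h9 : Real.exp (ε * L t) = Real.exp (ε1 * L t) ^ (s' + 1) * Real.exp (ε1 * L t) := by
    rw [← pow_succ, ← Real.exp_nat_mul]
    congr 1
    rw [hε1]
    push_cast
    field_simp
    ring
  have h10 : Real.exp (-(ε1 * L t)) * Real.exp (ε1 * L t) = 1 := by
    rw [← Real.exp_add]
    simp
  have h11 := mul_le_mul_of_nonneg_left key (Real.exp_pos (ε1 * L t)).le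
  calc lhs = Real.exp (ε1 * L t) * (Real.exp (-(ε1 * L t)) * lhs) := by
        rw [← mul_assoc, mul_comm (Real.exp (ε1 * L t)), h10, one_mul]
    _ ≤ _ := h11
    _ = _ := by rw [h9]; ring

end

end Pool.Agent.Y731.GV
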