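import Mathlib
import Pool.Agent.TH551.HA.Jq4
import Pool.Agent.Y731.GV.Germ

/-!
# Normal crossings divisors on smooth projective varieties, points with sparse coordinates
-/

set_option autoImplicit false
set_option linter.unusedSectionVars false
set_option linter.unusedVariables false

namespace Pool.Agent.Y731.GV

open Filter Topology Pool.Agent.TH932.Germs Pool.Agent.TH551.SU Pool.Agent.TH551.ZP
open Pool.Agent.TH551.SU.CRV Pool.Agent.TH551.SU.Ht MvPolynomial Pool.Agent.TH551.HA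
open Pool.Agent.TH551.HA.P1 (IsSparse)
open Pool.Agent.TH551.HA.Pn (aeval_bound)
open Pool.Agent.TH551.HA.Ci (aeval_gmn)

/-- the largest minor divided by the greatest common divisor of the minors -/
noncomputable def ratio {M k : ℕ} (A : Matrix (Fin M) (Fin k) ℤ) : ℝ :=
  ((Finset.univ.sup fun J : Fin k → Fin M => (mnr A J).natAbs : ℕ) : ℝ) /
    ((Finset.univ.gcd fun J : Fin k → Fin M => mnr A J : ℤ) : ℝ)

/-- a sequence in a finite type is constant along the ultrafilter -/
theorem const_of_finite {α : Type} [Finite α] (φ : ℕ → α) :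
    ∃ c, ∀ᶠ t in (UU : Filter ℕ), φ t = c := by
  rw [← Ultrafilter.eventually_exists_iff]
  exact Eventually.of_forall fun t => ⟨φ t, rfl⟩

/-- the sum of the logarithms over the places of a nonzero integer -/
theorem sum_log_av {s' : ℕ} {b : Fin s' → ℕ} (hb : ∀ v, (b v).Prime)
    (hbi : Function.Injective b) (z : ℤ) (hz : z ≠ 0) :
    0 ≤ ∑ v, Real.log (av b v (z : ℚ)) ∧
      ∑ v, Real.log (av b v (z : ℚ)) ≤ Real.log |(z : ℝ)| := by
  have hz' : (z : ℚ) ≠ 0 := by exact_mod_cast hz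
  constructor
  · rw [← Real.log_prod fun v _ => (av_pos hb v hz').ne']
    exact Real.log_nonneg (one_le_prod_int hb hbi z hz)
  · rw [Fintype.sum_option]
    have h1 : av b none (z : ℚ) = |(z : ℝ)| := by
      simp only [av]; push_cast; rfl
    rw [h1]
    have h2 : ∑ v : Fin s', Real.log (av b (some v) (z : ℚ)) ≤ 0 :=
      Finset.sum_nonpos fun v _ => Real.log_nonpos (av_nonneg hb _ _) (av_int_le_one hb v z)
    linarith

/-- **The inequality of Vojta for points with sparse coordinates and sparse factorisation on smooth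
projective varieties.** -/
theorem gvMain (hnc : NcStmt) (hcs : CSStmt) (hhb : HbStmt) (hfw : FwStmt) {s' : ℕ}
    (b : Fin s' → ℕ) (hb : ∀ v, (b v).Prime) (hbi : Function.Injective b)
    (m s g N w p k : ℕ)
    (f : Fin g → MvPolynomial (Fin (m + 1 + s)) ℚ) (ee : Fin g → ℕ)
    (hf : ∀ j, (f j).IsHomogeneous (ee j))
    (F : Fin N → Fin w → MvPolynomial (Fin (m + 1 + s)) ℚ) (dd : Fin N → Fin w → ℕ)
    (hF : ∀ i j, (F i j).IsHomogeneous (dd i j)) (hNC : SNC f F s)
    (S0 : Fin (m + 1) → Fin (m + 1 + s))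
    (ex : Fin N → Fin p → ℕ) (hex : ∀ l, ∃ i, 1 ≤ ex i l) (Γ : Subgroup ℚˣ)
    (hΓb : ∀ g ∈ Γ, IsSU b ((g : ℚˣ) : ℚ)) (ε : ℝ) (hε : 0 < ε) :
    ∃ (G : MvPolynomial (Fin (m + 1)) ℚ) (C : ℝ), (∃ d, G.IsHomogeneous d) ∧ G ≠ 0 ∧
      ∀ M : ℝ, 1 ≤ M → ∀ (x : Fin (m + 1 + s) → ℤ) (y : Fin p → ℤ) (c : Fin N → Fin w → ℤ),
        (∀ j, aeval (fun c => (x c : ℚ)) (f j) = 0) →
        (∀ c, IsSparse Γ k M (x c)) → (∀ i, IsSparse Γ k M (y i)) →
        (∀ i j, IsSparse Γ k M (c i j)) →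
        (∀ i j, aeval (fun c => (x c : ℚ)) (F i j) =
          ((c i j * ∏ l, y l ^ (ex i l) : ℤ) : ℚ)) →
        (∀ i, ∃ j, aeval (fun c => (x c : ℚ)) (F i j) ≠ 0) → Finset.univ.gcd x = 1 →
        aeval (fun i => (x (S0 i) : ℚ)) G ≠ 0 →
        ∀ A : Matrix (Fin (m + 1 + s)) (Fin (m + 1)) ℤ,
        (∀ κ : Fin (m + 1) → ℚ, (∀ c, ∑ ρ, κ ρ * (A c ρ : ℚ) = 0) → ∀ ρ, κ ρ = 0) →
        (∀ ρ j, ∑ c, (A c ρ : ℚ) * aeval (fun c => (x c : ℚ)) (pderiv c (f j)) = 0) →
        ∀ (a : Option (Fin s') → Fin (m + 1 + s)) (J : Option (Fin s') → Fin N → Fin w),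
        (∀ v c, av b v (x c : ℚ) ≤ av b v (x (a v) : ℚ)) →
        (∀ v i, aeval (fun c => (x c : ℚ)) (F i (J v i)) ≠ 0) →
        (∀ v i j, av b v (aeval (fun c => (x c : ℚ)) (F i j)) *
            av b v (x (a v) : ℚ) ^ dd i (J v i) ≤
            av b v (aeval (fun c => (x c : ℚ)) (F i (J v i))) *
            av b v (x (a v) : ℚ) ^ dd i j) →
        ∑ v, Real.log (av b v ((∏ l, y l ^ (exc ex Finset.univ l) : ℤ) : ℚ)) + Real.log (ratio A) ≤
          ε * Real.log |(x (a none) : ℝ)| + C * (1 + Real.log M) +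
          ∑ v, (((m : ℝ) + 1 - ∑ i, (dd i (J v i) : ℝ)) * Real.log (av b v (x (a v) : ℚ)) +
            ∑ i, Real.log (av b v (aeval (fun c => (x c : ℚ)) (F i (J v i))))) := by
  classical
  by_contra hcon
  push Not at hcon
  -- an enumeration of the nonzero forms
  let T : Type := {G : MvPolynomial (Fin (m + 1)) ℚ // (∃ e, G.IsHomogeneous e) ∧ G ≠ 0}
  have hT : Nonempty T := ⟨⟨1, ⟨0, MvPolynomial.isHomogeneous_one _ _⟩, one_ne_zero⟩⟩
  obtain ⟨gg, hg⟩ := exists_surjective_nat T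
  set GG' : ℕ → MvPolynomial (Fin (m + 1)) ℚ := fun t => ∏ i ∈ Finset.range (t + 1), (gg i).1
    with hGG'
  have hGh : ∀ t, ∃ e, (GG' t).IsHomogeneous e := by
    intro t
    choose e' he' using fun i => (gg i).2.1
    exact ⟨_, MvPolynomial.IsHomogeneous.prod _ _ _ fun i _ => he' i⟩
  have hG0 : ∀ t, GG' t ≠ 0 := fun t => Finset.prod_ne_zero_iff.2 fun i _ => (gg i).2.2
  -- the constants
  obtain ⟨cF, hcF⟩ : ∃ cF : ℝ, cF = 1 + ∑ i, ∑ j, ∑ α ∈ (F i j).support,
    |((coeff α (F i j) : ℚ) : ℝ)| := ⟨_, rfl⟩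
  have hcFsum : ∀ i j, ∑ α ∈ (F i j).support, |((coeff α (F i j) : ℚ) : ℝ)| ≤ cF := by
    intro i j
    have h1 := Finset.single_le_sum (f := fun j => ∑ α ∈ (F i j).support,
      |((coeff α (F i j) : ℚ) : ℝ)|) (fun _ _ => Finset.sum_nonneg fun _ _ => abs_nonneg _)
      (Finset.mem_univ j)
    have h2 := Finset.single_le_sum (f := fun i => ∑ j, ∑ α ∈ (F i j).support,
      |((coeff α (F i j) : ℚ) : ℝ)|) (fun _ _ => Finset.sum_nonneg fun _ _ =>
        Finset.sum_nonneg fun _ _ => abs_nonneg _) (Finset.mem_univ i)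
    rw [hcF]; linarith
  have hcF1 : 1 ≤ cF := by
    rw [hcF]
    have : 0 ≤ ∑ i, ∑ j, ∑ α ∈ (F i j).support, |((coeff α (F i j) : ℚ) : ℝ)| :=
      Finset.sum_nonneg fun _ _ => Finset.sum_nonneg fun _ _ => Finset.sum_nonneg fun _ _ =>
        abs_nonneg _
    linarith
  obtain ⟨c0, hc0⟩ : ∃ c0 : ℝ, c0 = (N : ℝ) * Real.log cF := ⟨_, rfl⟩
  have hc00 : 0 ≤ c0 := by
    rw [hc0]; exact mul_nonneg (Nat.cast_nonneg _) (Real.log_nonneg hcF1)
  choose M hM x y c hfA hxs hys hcs' hFA hF0 hgcd hGz A hAli hAt a J ha hJ0 hJm hlt using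
    fun t : ℕ => hcon (GG' t) ((t : ℝ) + c0) (hGh t) (hG0 t)
  obtain ⟨H, hH⟩ : ∃ H : ℕ → ℝ, H = fun t => |(x t (a t none) : ℝ)| := ⟨_, rfl⟩
  have hHle : ∀ t c, |(x t c : ℝ)| ≤ H t := by
    intro t c
    have h1 := ha t none c
    simp only [av] at h1
    push_cast at h1
    rw [hH]; exact h1
  have hH1 : ∀ t, 1 ≤ H t := by
    intro t
    have h1 : x t (a t none) ≠ 0 := by
      intro h0
      have hall : ∀ c, x t c = 0 := by
        intro c
        have h3 := hHle t c
        rw [hH] at h3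
        simp only [h0, Int.cast_zero, abs_zero] at h3
        exact_mod_cast abs_eq_zero.1 (le_antisymm h3 (abs_nonneg _))
      have h5 := hgcd t
      have h6 : Finset.univ.gcd (x t) = 0 := Finset.gcd_eq_zero_iff.2 fun c _ => hall c
      rw [h6] at h5
      exact zero_ne_one h5
    rw [hH]
    show (1 : ℝ) ≤ |((x t (a t none) : ℤ) : ℝ)|
    exact_mod_cast Int.one_le_abs h1
  have hy0 : ∀ t i, y t i ≠ 0 := by
    intro t i h0
    obtain ⟨i', hi'⟩ := hex i
    obtain ⟨j, hj⟩ := hF0 t i'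
    apply hj
    have h2 : ∏ l, y t l ^ (ex i' l) = 0 :=
      Finset.prod_eq_zero (i := i) (Finset.mem_univ _)
        (by rw [h0, zero_pow (by omega)])
    rw [hFA, h2, mul_zero, Int.cast_zero]
  -- the ratio is at least one
  have hratio : ∀ t, 1 ≤ ratio (A t) ∨ ratio (A t) = 0 := by
    intro t
    unfold ratio
    obtain ⟨gd, hgd⟩ : ∃ gd : ℤ, gd =
      Finset.univ.gcd fun J : Fin (m + 1) → Fin (m + 1 + s) => mnr (A t) J := ⟨_, rfl⟩
    rw [← hgd]
    by_cases h0 : gd = 0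
    · right; rw [h0]; simp
    · left
      have hgd0 : 0 ≤ gd := by
        rw [hgd]
        have := Finset.normalize_gcd (s := (Finset.univ : Finset (Fin (m + 1) → Fin (m + 1 + s))))
          (f := fun J => mnr (A t) J)
        exact Int.nonneg_of_normalize_eq_self this
      have hgd1 : 0 < gd := lt_of_le_of_ne hgd0 (Ne.symm h0)
      obtain ⟨J0, hJ0'⟩ : ∃ J0, mnr (A t) J0 ≠ 0 := by
        by_contra hno
        push Not at hno
        apply h0
        rw [hgd]
        exact Finset.gcd_eq_zero_iff.2 fun J _ => hno J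
      have h1 : gd ∣ mnr (A t) J0 := by
        rw [hgd]; exact Finset.gcd_dvd (Finset.mem_univ _)
      have h2 : gd ≤ ((mnr (A t) J0).natAbs : ℤ) := by
        refine Int.le_of_dvd (by positivity) ?_
        exact Int.dvd_natAbs.2 h1
      have h3 : (mnr (A t) J0).natAbs ≤
          Finset.univ.sup fun J : Fin (m + 1) → Fin (m + 1 + s) => (mnr (A t) J).natAbs :=
        Finset.le_sup (f := fun J => (mnr (A t) J).natAbs) (Finset.mem_univ _)
      rw [le_div_iff₀ (by exact_mod_cast hgd1), one_mul]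
      have h4 : gd ≤ ((Finset.univ.sup fun J : Fin (m + 1) → Fin (m + 1 + s) =>
        (mnr (A t) J).natAbs : ℕ) : ℤ) := h2.trans (by exact_mod_cast h3)
      exact_mod_cast h4
  have hlr : ∀ t, 0 ≤ Real.log (ratio (A t)) := by
    intro t
    rcases hratio t with h | h
    · exact Real.log_nonneg h
    · rw [h, Real.log_zero]
  obtain ⟨L, hLdef⟩ : ∃ L : ℕ → ℝ, L = fun t => Real.log (H t) + Real.log (ratio (A t)) :=
    ⟨_, rfl⟩
  have hlH : ∀ t, 0 ≤ Real.log (H t) := fun t => Real.log_nonneg (hH1 t)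
  have hL0 : ∀ t, 0 ≤ L t := fun t => by rw [hLdef]; exact add_nonneg (hlH t) (hlr t)
  have hHL : ∀ t, Real.log (H t) ≤ L t := fun t => by rw [hLdef]; linarith [hlr t]
  have hlM : ∀ t, 0 ≤ Real.log (M t) := fun t => Real.log_nonneg (hM t)
  have hxle : ∀ t c, |(x t c : ℝ)| ≤ Real.exp (L t) := fun t c => by
    refine (hHle t c).trans ?_
    rw [← Real.exp_log (show 0 < H t by linarith [hH1 t])]
    exact Real.exp_le_exp.2 (hHL t)
  obtain ⟨TQ, hTQ⟩ : ∃ TQ : ℕ, TQ = ∑ i, ∑ j, dd i j := ⟨_, rfl⟩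
  have hTQ0 : (0 : ℝ) ≤ TQ := Nat.cast_nonneg _
  have hN0 : (0 : ℝ) ≤ N := Nat.cast_nonneg _
  have hddle : ∀ i j, dd i j ≤ TQ := fun i j => by
    rw [hTQ]
    exact (Finset.single_le_sum (f := fun j => dd i j) (fun _ _ => Nat.zero_le _)
      (Finset.mem_univ j)).trans (Finset.single_le_sum (f := fun i => ∑ j, dd i j)
        (fun _ _ => Nat.zero_le _) (Finset.mem_univ i))
  -- values of the forms
  have hFle : ∀ t i j, |((aeval (fun c => (x t c : ℚ)) (F i j) : ℚ) : ℝ)| ≤
      cF * H t ^ dd i j := by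
    intro t i j
    refine (aeval_bound (hF i j) (x t) (H t) (hHle t)).trans ?_
    exact mul_le_mul_of_nonneg_right (hcFsum i j) (by have := hH1 t; positivity)
  -- the chosen nonzero values
  choose jj hjj using hF0
  have hzz : ∀ t i j, aeval (fun c => (x t c : ℚ)) (F i j) =
      ((c t i j * ∏ l, y t l ^ (ex i l) : ℤ) : ℚ) := hFA
  have hz0 : ∀ t i, c t i (jj t i) * ∏ l, y t l ^ (ex i l) ≠ 0 := by
    intro t i h0
    apply hjj t i
    rw [hzz, h0, Int.cast_zero]
  have hdvd : ∀ t, (∏ l, y t l ^ (exc ex Finset.univ l)) ∣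
      ∏ i, (c t i (jj t i) * ∏ l, y t l ^ (ex i l)) := by
    intro t
    rw [Finset.prod_mul_distrib]
    refine Dvd.dvd.mul_left ?_ _
    rw [Finset.prod_comm]
    refine Finset.prod_dvd_prod_of_dvd _ _ fun l _ => ?_
    rw [Finset.prod_pow_eq_pow_sum]
    exact pow_dvd_pow _ (Nat.sub_le _ _)
  -- the excess of the factorisation
  have hP' : ∀ t, ∑ v, Real.log (av b v ((∏ l, y t l ^ (exc ex Finset.univ l) : ℤ) : ℚ)) ≤
      (N : ℝ) * Real.log cF + (N : ℝ) * TQ * Real.log (H t) := by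
    intro t
    have hprod : ∏ l, y t l ^ (exc ex Finset.univ l) ≠ 0 :=
      Finset.prod_ne_zero_iff.2 fun l _ => pow_ne_zero _ (hy0 t l)
    refine (sum_log_av hb hbi _ hprod).2.trans ?_
    have h4 : ∏ i, (c t i (jj t i) * ∏ l, y t l ^ (ex i l)) ≠ 0 :=
      Finset.prod_ne_zero_iff.2 fun i _ => hz0 t i
    have h5 := abs_le_of_dvd (hdvd t) h4
    have h8 : (0 : ℝ) < |((∏ l, y t l ^ (exc ex Finset.univ l) : ℤ) : ℝ)| := by
      refine abs_pos.2 ?_
      exact_mod_cast hprod
    refine (Real.log_le_log h8 h5).trans ?_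
    have h2 : |((∏ i, (c t i (jj t i) * ∏ l, y t l ^ (ex i l)) : ℤ) : ℝ)| =
        ∏ i, |((c t i (jj t i) * ∏ l, y t l ^ (ex i l) : ℤ) : ℝ)| := by
      push_cast; rw [Finset.abs_prod]
    rw [h2, Real.log_prod fun i _ => by
      refine abs_ne_zero.2 ?_
      exact_mod_cast hz0 t i]
    have h3 : ∀ σ ∈ (Finset.univ : Finset (Fin N)),
        Real.log |((c t σ (jj t σ) * ∏ l, y t l ^ (ex σ l) : ℤ) : ℝ)| ≤
          Real.log cF + TQ * Real.log (H t) := by
      intro σ _
      have h6 := hFle t σ (jj t σ)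
      rw [hzz] at h6
      have h7 : (((c t σ (jj t σ) * ∏ l, y t l ^ (ex σ l) : ℤ) : ℚ) : ℝ) =
          ((c t σ (jj t σ) * ∏ l, y t l ^ (ex σ l) : ℤ) : ℝ) := by push_cast; rfl
      rw [h7] at h6
      have h8 : (0 : ℝ) < |((c t σ (jj t σ) * ∏ l, y t l ^ (ex σ l) : ℤ) : ℝ)| := by
        refine abs_pos.2 ?_
        exact_mod_cast hz0 t σ
      have hHp : 0 < H t := by linarith [hH1 t]
      calc Real.log |((c t σ (jj t σ) * ∏ l, y t l ^ (ex σ l) : ℤ) : ℝ)| ≤
            Real.log (cF * H t ^ dd σ (jj t σ)) := Real.log_le_log h8 h6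
        _ = Real.log cF + dd σ (jj t σ) * Real.log (H t) := by
            rw [Real.log_mul (by linarith) (pow_pos hHp _).ne', Real.log_pow]
        _ ≤ _ := by
            have h9 : (dd σ (jj t σ) : ℝ) ≤ TQ := by exact_mod_cast hddle _ _
            have := mul_le_mul_of_nonneg_right h9 (hlH t)
            linarith
    refine (Finset.sum_le_sum h3).trans ?_
    rw [Finset.sum_const, Finset.card_univ, Fintype.card_fin, nsmul_eq_mul]
    exact le_of_eq (by ring)
  have hxav : ∀ t (v : Fin s'), av b (some v) (x t (a t (some v)) : ℚ) = 1 := by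
    intro t v
    have hne : Nonempty (Fin (m + 1 + s)) := ⟨a t none⟩
    refine le_antisymm (av_int_le_one hb v _) ?_
    obtain ⟨j, h1⟩ := av_gcd_le' hb v (x t)
    rw [hgcd t] at h1
    have h2 : av b (some v) ((1 : ℤ) : ℚ) = 1 := by rw [Int.cast_one, av_one hb]
    rw [h2] at h1
    exact h1.trans (ha t _ j)
  -- the right-hand side from below
  obtain ⟨Q, hQ⟩ : ∃ Q : ℕ → ℝ, Q = fun t => ∑ v, (((m : ℝ) + 1 - ∑ i, (dd i (J t v i) : ℝ)) *
      Real.log (av b v (x t (a t v) : ℚ)) +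
        ∑ i, Real.log (av b v (aeval (fun c => (x t c : ℚ)) (F i (J t v i))))) := ⟨_, rfl⟩
  have hxpos : ∀ t v, 0 < av b v (x t (a t v) : ℚ) := by
    intro t v
    cases v with
    | none =>
      have h1 : av b none (x t (a t none) : ℚ) = H t := by
        rw [hH]; simp only [av]; push_cast; rfl
      rw [h1]; linarith [hH1 t]
    | some v => rw [hxav]; norm_num
  have hxlog : ∀ t, ∑ v, Real.log (av b v (x t (a t v) : ℚ)) = Real.log (H t) := by
    intro t
    rw [Fintype.sum_option]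
    have h1 : av b none (x t (a t none) : ℚ) = H t := by
      rw [hH]; simp only [av]; push_cast; rfl
    rw [h1, Finset.sum_eq_zero fun v _ => by rw [hxav, Real.log_one], add_zero]
  have hQlow : ∀ t, -((N : ℝ) * TQ * Real.log (H t)) ≤ Q t := by
    intro t
    rw [hQ]
    simp only
    have h1 : ∀ v, ((m : ℝ) + 1) * Real.log (av b v (x t (a t v) : ℚ)) +
        ∑ i, (Real.log (av b v (aeval (fun c => (x t c : ℚ)) (F i (jj t i)))) -
          dd i (jj t i) * Real.log (av b v (x t (a t v) : ℚ))) ≤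
        ((m : ℝ) + 1 - ∑ i, (dd i (J t v i) : ℝ)) * Real.log (av b v (x t (a t v) : ℚ)) +
          ∑ i, Real.log (av b v (aeval (fun c => (x t c : ℚ)) (F i (J t v i)))) := by
      intro v
      rw [sub_mul, Finset.sum_mul, sub_add_eq_add_sub, add_sub_assoc, ← Finset.sum_sub_distrib]
      refine add_le_add le_rfl (Finset.sum_le_sum fun i _ => ?_)
      have h2 := hJm t v i (jj t i)
      have h3 := av_pos hb v (hjj t i)
      have h4 := av_pos hb v (hJ0 t v i)
      have h5 := hxpos t v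
      have h6 := Real.log_le_log (mul_pos h3 (pow_pos h5 _)) h2
      rw [Real.log_mul h3.ne' (pow_pos h5 _).ne', Real.log_mul h4.ne' (pow_pos h5 _).ne',
        Real.log_pow, Real.log_pow] at h6
      linarith
    have h2 := Finset.sum_le_sum fun v (_ : v ∈ (Finset.univ : Finset (Option (Fin s')))) => h1 v
    refine le_trans ?_ h2
    rw [Finset.sum_add_distrib, ← Finset.mul_sum, hxlog, Finset.sum_comm]
    have h3 : ∀ i ∈ (Finset.univ : Finset (Fin N)), -(TQ * Real.log (H t)) ≤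
        ∑ v, (Real.log (av b v (aeval (fun c => (x t c : ℚ)) (F i (jj t i)))) -
          dd i (jj t i) * Real.log (av b v (x t (a t v) : ℚ))) := by
      intro i _
      rw [Finset.sum_sub_distrib, ← Finset.mul_sum, hxlog]
      have h4 := hz0 t i
      have h5 := (sum_log_av hb hbi _ h4).1
      rw [hzz]
      have h9 : (dd i (jj t i) : ℝ) ≤ TQ := by exact_mod_cast hddle _ _
      have := mul_le_mul_of_nonneg_right h9 (hlH t)
      linarith
    have h4 := Finset.sum_le_sum h3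
    rw [Finset.sum_const, Finset.card_univ, Fintype.card_fin, nsmul_eq_mul] at h4
    have h5 : 0 ≤ ((m : ℝ) + 1) * Real.log (H t) := mul_nonneg (by positivity) (hlH t)
    linarith
  have hQup : ∀ t, Q t ≤ ((m : ℝ) + 1) * Real.log (H t) + (N : ℝ) * Real.log cF := by
    intro t
    rw [hQ]
    simp only
    rw [Fintype.sum_option]
    have hHt : av b none (x t (a t none) : ℚ) = H t := by
      rw [hH]; simp only [av]; push_cast; rfl
    have h1 : ∑ v : Fin s', (((m : ℝ) + 1 - ∑ i, (dd i (J t (some v) i) : ℝ)) *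
        Real.log (av b (some v) (x t (a t (some v)) : ℚ)) +
          ∑ i, Real.log (av b (some v) (aeval (fun c => (x t c : ℚ)) (F i (J t (some v) i))))) ≤
        0 := by
      refine Finset.sum_nonpos fun v _ => ?_
      rw [hxav, Real.log_one, mul_zero, zero_add]
      refine Finset.sum_nonpos fun i _ => ?_
      rw [hzz]
      exact Real.log_nonpos (av_nonneg hb _ _) (av_int_le_one hb v _)
    have h2 : ∀ i ∈ (Finset.univ : Finset (Fin N)),
        Real.log (av b none (aeval (fun c => (x t c : ℚ)) (F i (J t none i)))) ≤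
          Real.log cF + dd i (J t none i) * Real.log (H t) := by
      intro i _
      have hHp : 0 < H t := by linarith [hH1 t]
      have h3 := hFle t i (J t none i)
      have h4 := av_pos hb none (hJ0 t none i)
      have h5 := Real.log_le_log h4 h3
      rwa [Real.log_mul (by linarith) (pow_pos hHp _).ne', Real.log_pow] at h5
    have h3 := Finset.sum_le_sum h2
    rw [Finset.sum_add_distrib, Finset.sum_const, Finset.card_univ, Fintype.card_fin,
      nsmul_eq_mul, ← Finset.sum_mul] at h3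
    rw [hHt]
    have h4 : ((m : ℝ) + 1 - ∑ i, (dd i (J t none i) : ℝ)) * Real.log (H t) =
      ((m : ℝ) + 1) * Real.log (H t) - (∑ i, (dd i (J t none i) : ℝ)) * Real.log (H t) := by ring
    linarith
  obtain ⟨Bq, hBq⟩ : ∃ Bq : ℝ, Bq = 2 * ((N : ℝ) * TQ) + TQ + 2 := ⟨_, rfl⟩
  have hBq0 : 0 < Bq := by rw [hBq]; positivity
  have hlt' : ∀ t : ℕ, ε * Real.log (H t) + ((t : ℝ) + c0) * (1 + Real.log (M t)) + Q t <
      ∑ v, Real.log (av b v ((∏ l, y t l ^ (exc ex Finset.univ l) : ℤ) : ℚ)) + Real.log (ratio (A t)) := by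
    intro t
    have h1 := hlt t
    rw [hQ, hH]
    exact h1
  have hLt : ∀ t : ℕ, (t : ℝ) * (1 + Real.log (M t)) < Bq * L t := by
    intro t
    have h1 := hlt' t
    have h2 := hP' t
    have h3 := hQlow t
    have h4 : c0 ≤ c0 * (1 + Real.log (M t)) := le_mul_of_one_le_right hc00 (by linarith [hlM t])
    have h5 : 0 ≤ ε * Real.log (H t) := mul_nonneg hε.le (hlH t)
    have h6 : Bq * L t = 2 * ((N : ℝ) * TQ * L t) + TQ * L t + 2 * L t := by rw [hBq]; ring
    have h7 : (N : ℝ) * TQ * Real.log (H t) ≤ (N : ℝ) * TQ * L t :=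
      mul_le_mul_of_nonneg_left (hHL t) (mul_nonneg hN0 hTQ0)
    have h8 : Real.log (ratio (A t)) ≤ L t := by rw [hLdef]; linarith [hlH t]
    have h9 : 0 ≤ TQ * L t := mul_nonneg hTQ0 (hL0 t)
    have h10 : ((t : ℝ) + c0) * (1 + Real.log (M t)) =
      (t : ℝ) * (1 + Real.log (M t)) + c0 * (1 + Real.log (M t)) := by ring
    rw [h10] at h1
    rw [← hc0] at h2
    have := hL0 t
    linarith
  have hL : Tendsto L atTop atTop := by
    refine tendsto_atTop_mono (fun t => ?_)
      ((tendsto_natCast_atTop_atTop (R := ℝ)).atTop_div_const hBq0)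
    rw [div_le_iff₀ hBq0]
    have h1 := hLt t
    have h2 : 0 ≤ (t : ℝ) * Real.log (M t) := mul_nonneg (Nat.cast_nonneg t) (hlM t)
    rw [mul_add, mul_one] at h1
    linarith
  -- the digits are negligible
  have hneg : ∀ z : ℕ → ℤ, (∀ t, |(z t : ℝ)| ≤ M t) → gm (fun t => (z t : ℚ)) ∈ KK L hL := by
    intro z hz
    refine ⟨z, fun _ => 1, ?_, Negl.one hL, by simp, by
      congr 1
      funext t
      simp⟩
    intro ε' hε'
    have h1 : ∀ᶠ t : ℕ in atTop, Bq / ε' ≤ (t : ℝ) :=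
      tendsto_natCast_atTop_atTop.eventually_ge_atTop _
    refine ev_of_atTop (h1.mono fun t ht => ?_)
    refine (hz t).trans ?_
    rw [← Real.exp_log (show 0 < M t by linarith [hM t])]
    refine Real.exp_le_exp.2 ?_
    have h2 := hLt t
    have h3 : Bq / ε' * Real.log (M t) ≤ (t : ℝ) * (1 + Real.log (M t)) := by
      have h5 : (0 : ℝ) ≤ t := Nat.cast_nonneg t
      nlinarith [mul_le_mul_of_nonneg_right ht (hlM t)]
    have h5 : Bq / ε' * Real.log (M t) ≤ Bq * L t := h3.trans h2.le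
    have h6 : Bq * (Real.log (M t)) ≤ Bq * (ε' * L t) := by
      have h7 := mul_le_mul_of_nonneg_left h5 hε'.le
      have h8 : ε' * (Bq / ε' * Real.log (M t)) = Bq * Real.log (M t) := by field_simp
      rw [h8] at h7
      linarith
    exact le_of_mul_le_mul_left h6 hBq0
  -- the sizes of the values
  have hAle : ∀ i j, ∀ᶠ t in (UU : Filter ℕ),
      |((c t i j * ∏ l, y t l ^ (ex i l) : ℤ) : ℝ)| ≤ Real.exp (Bq * L t) := by
    intro i j
    have h1 : ∀ᶠ t in (UU : Filter ℕ), cF ≤ L t := ev_of_atTop (hL.eventually_ge_atTop _)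
    filter_upwards [h1] with t h2
    have h3 := aeval_bound (hF i j) (x t) (Real.exp (L t)) (hxle t)
    rw [hzz] at h3
    have h4 : (((c t i j * ∏ l, y t l ^ (ex i l) : ℤ) : ℚ) : ℝ) =
      ((c t i j * ∏ l, y t l ^ (ex i l) : ℤ) : ℝ) := by push_cast; rfl
    rw [h4] at h3
    refine h3.trans ?_
    have h5 : ∑ α ∈ (F i j).support, |((coeff α (F i j) : ℚ) : ℝ)| ≤ Real.exp (L t) :=
      (hcFsum i j).trans (h2.trans (by linarith [Real.add_one_le_exp (L t)]))
    have h6 : Real.exp (L t) ^ (dd i j) ≤ Real.exp (L t) ^ TQ :=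
      pow_le_pow_right₀ (Real.one_le_exp (hL0 t)) (hddle i j)
    calc _ ≤ Real.exp (L t) * Real.exp (L t) ^ TQ :=
          mul_le_mul h5 h6 (by positivity) (Real.exp_pos _).le
      _ = Real.exp ((TQ + 1) * L t) := by
          rw [← Real.exp_nat_mul, ← Real.exp_add]
          congr 1
          ring
      _ ≤ _ := by
          refine Real.exp_le_exp.2 (mul_le_mul_of_nonneg_right ?_ (hL0 t))
          rw [hBq]
          have := mul_nonneg hN0 hTQ0
          linarith
  -- the sparse numbers together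
  obtain ⟨Z, hZ⟩ : ∃ Z : Fin (m + 1 + s) ⊕ (Fin p ⊕ (Fin N × Fin w)) → ℕ → ℤ,
      Z = Sum.elim (fun c t => x t c) (Sum.elim (fun i t => y t i) (fun ij t => c t ij.1 ij.2)) :=
    ⟨_, rfl⟩
  have hZs : ∀ j t, IsSparse Γ k (M t) (Z j t) := by
    intro j t
    rw [hZ]
    rcases j with c | i | ij
    · exact hxs t c
    · exact hys t i
    · exact hcs' t ij.1 ij.2
  have hZle : ∀ j, ∀ᶠ t in (UU : Filter ℕ), |(Z j t : ℝ)| ≤ Real.exp (Bq * L t) := by
    intro j
    rw [hZ]
    rcases j with c' | i | ij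
    · refine Eventually.of_forall fun t => (hxle t c').trans (Real.exp_le_exp.2 ?_)
      have h1 : 1 ≤ Bq := by
        rw [hBq]
        have := mul_nonneg hN0 hTQ0
        linarith
      nlinarith [hL0 t]
    · obtain ⟨i', hi'⟩ := hex i
      obtain ⟨j0, hj0⟩ := const_of_finite fun t => jj t i'
      filter_upwards [hAle i' j0, hj0] with t h1 h2
      refine le_trans ?_ h1
      refine abs_le_of_dvd ?_ ?_
      · refine Dvd.dvd.mul_left ?_ _
        refine (dvd_pow_self (y t i) (by omega : ex i' i ≠ 0)).trans ?_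
        exact Finset.dvd_prod_of_mem (fun j => y t j ^ (ex i' j)) (Finset.mem_univ _)
      · intro h0
        apply hjj t i'
        rw [h2, hzz, h0, Int.cast_zero]
    · filter_upwards [hAle ij.1 ij.2] with t h1
      show |(c t ij.1 ij.2 : ℝ)| ≤ _
      by_cases h0 : c t ij.1 ij.2 = 0
      · rw [h0]
        simpa using (Real.exp_pos _).le
      · refine le_trans ?_ h1
        refine abs_le_of_dvd (dvd_mul_right _ _) ?_
        exact mul_ne_zero h0 (Finset.prod_ne_zero_iff.2 fun l _ => pow_ne_zero _ (hy0 t l))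
  choose uu aa haa hZeq using hZs
  -- the germs
  have hrepz : ∀ z : ℕ → ℤ, ∀ᶠ t in (UU : Filter ℕ), rep (gm (fun t => (z t : ℚ))) t = z t :=
    fun z => rep_gm _
  have havle : ∀ (z : ℕ → ℤ), (∀ᶠ t in (UU : Filter ℕ), |(z t : ℝ)| ≤ Real.exp (Bq * L t)) →
      ∀ᶠ t in (UU : Filter ℕ), ∀ v, av b v (z t : ℚ) ≤ Real.exp (Bq * L t) := by
    intro z hz
    filter_upwards [hz] with t ht v
    cases v with
    | none =>
      simp only [av]
      push_cast
      exact ht
    | some v =>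
      exact (av_int_le_one hb v _).trans (Real.one_le_exp (mul_nonneg hBq0.le (hL0 t)))
  have hHB : ∀ i, ∃ (m' : ℕ) (u' : Fin m' → GG) (c' : Fin m' → KK L hL), (∀ j, GSU b (u' j)) ∧
        (∀ j, Mod b L (u' j)) ∧ ∑ j, (c' j : GG) * u' j = gm (fun t => (Z i t : ℚ)) := by
    intro i
    set V : Fin k → GG := fun j => gm (fun t => ((uu i t j : ℚˣ) : ℚ)) with hV
    have hVS : ∀ j, GSU b (V j) := fun j => ⟨_, rfl, fun t => hΓb _ (uu i t j).2⟩
    have hgerm : ∑ j, gm (fun t => (aa i t j : ℚ)) * V j = gm (fun t => (Z i t : ℚ)) := by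
      have h1 : ∀ j, gm (fun t => (aa i t j : ℚ)) * V j =
          gm (fun t => ((uu i t j : ℚˣ) : ℚ) * aa i t j) := by
        intro j
        rw [hV]
        simp only
        rw [gm_mul]
        congr 1
        funext t
        ring
      simp only [h1]
      rw [gm_sum']
      congr 1
      funext t
      rw [hZeq i t]
    have h1 := hhb s' b hb hbi L hL k V hVS
      (fun j => ⟨gm (fun t => (aa i t j : ℚ)), hneg _ fun t => haa i t j⟩) Bq (by
        have h2 : ∑ j, ((⟨gm (fun t => (aa i t j : ℚ)), hneg _ fun t => haa i t j⟩ :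
            KK L hL) : GG) * V j = gm (fun t => (Z i t : ℚ)) := hgerm
        rw [h2]
        filter_upwards [hrepz (fun t => Z i t), havle _ (hZle i)] with t ht h3 v
        rw [ht]
        exact h3 v)
    obtain ⟨m', u', c', h3, h4, h5⟩ := h1
    exact ⟨m', u', c', h3, h4, h5.trans hgerm⟩
  choose m' u' c' hu' hu'' hs' using hHB
  -- the combined family
  let T2 : Type := Σ i : Fin (m + 1 + s) ⊕ (Fin p ⊕ (Fin N × Fin w)), Fin (m' i)
  let eqv : T2 ≃ Fin (Fintype.card T2) := Fintype.equivFin T2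
  let fT : T2 → GG := fun q => u' q.1 q.2
  set W : Fin (Fintype.card T2 + 1) → GG := Fin.cons 1 (fun j => fT (eqv.symm j)) with hW
  have hWs : ∀ q : T2, W (eqv q).succ = fT q := by
    intro q
    rw [hW, Fin.cons_succ, Equiv.symm_apply_apply]
  have hWall : ∀ (P : GG → Prop), P 1 → (∀ q, P (fT q)) → ∀ j, P (W j) := by
    intro P h0 h1 j
    rw [hW]
    refine Fin.cases ?_ (fun j => ?_) j
    · simpa using h0
    · rw [Fin.cons_succ]
      exact h1 _
  have hWg : ∀ j, GSU b (W j) := hWall _ GSU.one fun q => hu' _ _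
  have hWm : ∀ j, Mod b L (W j) := hWall _ (Mod.one hb hL) fun q => hu'' _ _
  obtain ⟨l, hl⟩ := hfw L hL (Fintype.card T2) W (fun j => GSU.ne_zero hb (hWg j))
    (1 + (∑ i, ∑ l, ex i l + ∑ i, ∑ j, dd i j) + ∑ j, ee j)
  have hs : Setup b hL W l (1 + (∑ i, ∑ l, ex i l + ∑ i, ∑ j, dd i j) + ∑ j, ee j) := ⟨hWg, hWm, hl⟩
  choose X hX hX1 using fun i => exists_lift (hL := hL) W l
    (fun j : Fin (m' i) => (eqv ⟨i, j⟩).succ) (c' i)
  have hX2 : ∀ i, (X i).eval 1 = gm (fun t => (Z i t : ℚ)) := by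
    intro i
    rw [hX1, ← hs' i]
    refine Finset.sum_congr rfl fun j _ => ?_
    rw [hWs]
  have hXx : ∀ c, (X (Sum.inl c)).eval 1 = gm (fun t => (x t c : ℚ)) := by
    intro c
    rw [hX2, hZ]
    rfl
  have hXy : ∀ i, (X (Sum.inr (Sum.inl i))).eval 1 = gm (fun t => (y t i : ℚ)) := by
    intro i
    rw [hX2, hZ]
    rfl
  have hXc : ∀ i j, (X (Sum.inr (Sum.inr (i, j)))).eval 1 = gm (fun t => (c t i j : ℚ)) := by
    intro i j
    rw [hX2, hZ]
    rfl
  -- the choices at the places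
  obtain ⟨a0, ha0⟩ := const_of_finite a
  obtain ⟨J0, hJ0'⟩ := const_of_finite J
  -- the small constant
  obtain ⟨ε1, hε1⟩ : ∃ ε1 : ℝ, ε1 = min (ε / (4 * ((m : ℝ) + 2))) (1 / (2 * ((N : ℝ) + 1))) :=
    ⟨_, rfl⟩
  have hm2 : (0 : ℝ) < (m : ℝ) + 2 := by positivity
  have hN1 : (0 : ℝ) < (N : ℝ) + 1 := by positivity
  have hε1' : 0 < ε1 := by
    rw [hε1]
    exact lt_min (by positivity) (by positivity)
  have key := gvGerm hnc hcs hb hbi hs (by rw [hW]; rfl) p f ee hf F dd hF hNC ex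
    (Nat.le_add_right _ _) (fun j => (Finset.single_le_sum (f := ee) (fun _ _ => Nat.zero_le _)
      (Finset.mem_univ j)).trans (Nat.le_add_left _ _))
    (fun c => X (Sum.inl c)) (fun c => hX _) (fun c t => x t c) hXx
    (fun i => X (Sum.inr (Sum.inl i))) (fun i => hX _) (fun i t => y t i) hXy
    (fun i j => X (Sum.inr (Sum.inr (i, j)))) (fun i j => hX _) (fun i j t => c t i j) hXc
    (fun j t => hfA t j) (fun i j t => hzz t i j) hgcd S0
    (by
      intro G hGh' hGI' h0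
      obtain ⟨s0, hs0⟩ := hg ⟨G, hGh', hGI'⟩
      rw [aeval_gmn, ← gm_zero, gm_eq] at h0
      have h1 : ∀ᶠ t : ℕ in (UU : Filter ℕ), s0 ≤ t :=
        ev_of_atTop (eventually_ge_atTop s0)
      obtain ⟨t, h2, h3⟩ := (h0.and h1).exists
      apply hGz t
      simp only [hGG', map_prod]
      refine Finset.prod_eq_zero (i := s0) (Finset.mem_range.2 (by omega)) ?_
      rw [hs0]
      exact h2)
    A hAli hAt a0 J0
    (fun v => by filter_upwards [ha0] with t ht c'; rw [← ht]; exact ha t v c')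
    (fun v => by filter_upwards [hJ0'] with t ht i; rw [← ht]; exact hJ0 t v i)
    (fun v => by
      filter_upwards [ha0, hJ0'] with t h1 h2 i j
      rw [← h1, ← h2]
      exact hJm t v i j) ε1 hε1'
  have hcL : ∀ᶠ t in (UU : Filter ℕ), Real.log cF / ε1 ≤ L t :=
    ev_of_atTop (hL.eventually_ge_atTop _)
  obtain ⟨t, ⟨h0, h1⟩, h2, h3, h4⟩ := (key.and (ha0.and (hJ0'.and hcL))).exists
  rw [← h2, ← h3] at h1
  have hprod : ∏ l, y t l ^ (exc ex Finset.univ l) ≠ 0 :=
    Finset.prod_ne_zero_iff.2 fun i _ => pow_ne_zero _ (hy0 t i)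
  have hprod' : ((∏ l, y t l ^ (exc ex Finset.univ l) : ℤ) : ℚ) ≠ 0 := by exact_mod_cast hprod
  -- logarithms
  have hlog : ∑ v, Real.log (av b v ((∏ l, y t l ^ (exc ex Finset.univ l) : ℤ) : ℚ)) +
      Real.log (ratio (A t)) ≤ ε1 * L t + Q t := by
    have hPpos : 0 < ∏ v, av b v ((∏ l, y t l ^ (exc ex Finset.univ l) : ℤ) : ℚ) :=
      Finset.prod_pos fun v _ => av_pos hb v hprod'
    have hterm : ∀ v, 0 < av b v (x t (a t v) : ℚ) ^ (m + 1) /
        av b v (x t (a t v) : ℚ) ^ (∑ i, dd i (J t v i)) *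
          ∏ i, av b v (aeval (fun c => (x t c : ℚ)) (F i (J t v i))) := fun v =>
      mul_pos (div_pos (pow_pos (hxpos t v) _) (pow_pos (hxpos t v) _))
        (Finset.prod_pos fun i _ => av_pos hb v (hJ0 t v i))
    have hlogQ : Real.log (Real.exp (ε1 * L t) * ∏ v, (av b v (x t (a t v) : ℚ) ^ (m + 1) /
        av b v (x t (a t v) : ℚ) ^ (∑ i, dd i (J t v i)) *
          ∏ i, av b v (aeval (fun c => (x t c : ℚ)) (F i (J t v i))))) = ε1 * L t + Q t := by
      rw [Real.log_mul (Real.exp_pos _).ne' (Finset.prod_pos fun v _ => hterm v).ne',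
        Real.log_exp, Real.log_prod fun v _ => (hterm v).ne', hQ]
      congr 1
      refine Finset.sum_congr rfl fun v _ => ?_
      rw [Real.log_mul (div_pos (pow_pos (hxpos t v) _) (pow_pos (hxpos t v) _)).ne'
        (Finset.prod_pos fun i _ => av_pos hb v (hJ0 t v i)).ne',
        Real.log_div (pow_pos (hxpos t v) _).ne' (pow_pos (hxpos t v) _).ne',
        Real.log_pow, Real.log_pow, Real.log_prod fun i _ => (av_pos hb v (hJ0 t v i)).ne']
      push_cast
      ring
    rcases hratio t with h5 | h5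
    · have h6 : 0 < ratio (A t) := by linarith
      have h7 := Real.log_le_log (mul_pos hPpos h6) h1
      rw [hlogQ, Real.log_mul hPpos.ne' h6.ne',
        Real.log_prod fun v _ => (av_pos hb v hprod').ne'] at h7
      exact h7
    · -- some minor does not vanish
      exfalso
      unfold ratio at h5
      rcases div_eq_zero_iff.1 h5 with h6 | h6
      · have h7 : (mnr (A t) S0).natAbs ≤
            Finset.univ.sup fun J : Fin (m + 1) → Fin (m + 1 + s) => (mnr (A t) J).natAbs :=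
          Finset.le_sup (f := fun J => (mnr (A t) J).natAbs) (Finset.mem_univ _)
        rw [Nat.cast_eq_zero.1 h6] at h7
        exact h0 (Int.natAbs_eq_zero.1 (Nat.le_zero.1 h7))
      · have h7 := (Finset.gcd_eq_zero_iff.1 (Int.cast_eq_zero.1 h6)) S0 (Finset.mem_univ _)
        exact h0 h7
  have h5 := hlt' t
  have h6 := hQup t
  have h7 := (sum_log_av hb hbi _ hprod).1
  have h8 : Real.log cF ≤ ε1 * L t := by
    rw [div_le_iff₀ hε1'] at h4
    linarith
  have h9 : 0 ≤ ((t : ℝ) + c0) * (1 + Real.log (M t)) :=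
    mul_nonneg (add_nonneg (Nat.cast_nonneg t) hc00) (by linarith [hlM t])
  have hLe : L t = Real.log (H t) + Real.log (ratio (A t)) := by rw [hLdef]
  have h10 : (N : ℝ) * Real.log cF ≤ (N : ℝ) * (ε1 * L t) := mul_le_mul_of_nonneg_left h8 hN0
  have h11 : ε1 * ((N : ℝ) + 1) ≤ 1 / 2 := by
    have h12 : ε1 ≤ 1 / (2 * ((N : ℝ) + 1)) := by rw [hε1]; exact min_le_right _ _
    have h13 := mul_le_mul_of_nonneg_right h12 hN1.le
    have h14 : 1 / (2 * ((N : ℝ) + 1)) * ((N : ℝ) + 1) = 1 / 2 := by field_simp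
    linarith
  have h12 : ε1 * (4 * ((m : ℝ) + 2)) ≤ ε := by
    have h12 : ε1 ≤ ε / (4 * ((m : ℝ) + 2)) := by rw [hε1]; exact min_le_left _ _
    rwa [le_div_iff₀ (by positivity)] at h12
  -- the height controls the ratio
  have h13 : L t ≤ 2 * (((m : ℝ) + 2) * Real.log (H t)) := by
    have h14 := mul_le_mul_of_nonneg_right h11 (hL0 t)
    have h15 : ε1 * ((N : ℝ) + 1) * L t = (N : ℝ) * (ε1 * L t) + ε1 * L t := by ring
    nlinarith [hlH t]
  have h14 : ε1 * L t ≤ ε * Real.log (H t) / 2 := by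
    have h15 := mul_le_mul_of_nonneg_left h13 hε1'.le
    have h16 := mul_le_mul_of_nonneg_right h12 (hlH t)
    nlinarith
  have h15 : 0 ≤ ε * Real.log (H t) := mul_nonneg hε.le (hlH t)
  linarith

end Pool.Agent.Y731.GV
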