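import Mathlib
import Pool.Agent.TH551.HA.Fin
import Pool.Agent.Y731.GV.Base
import Pool.Agent.Y731.GV.Main

/-!
# The truncated inequality of Vojta for sparse points on all smooth projective varieties
-/

set_option autoImplicit false
set_option linter.unusedSectionVars false
set_option linter.unusedVariables false

namespace Pool.Agent.Y731.GV

open Filter Topology Pool.Agent.TH932.Germs Pool.Agent.TH551.SU Pool.Agent.TH551.ZP
open Pool.Agent.TH551.SU.CRV Pool.Agent.TH551.SU.Ht MvPolynomial Pool.Agent.TH551.HA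
open Pool.Agent.TH551.HA.P1 (IsSparse)

/-- the height of a primitive vector -/
def htv {M : ℕ} (x : Fin M → ℤ) : ℕ := Finset.univ.sup (fun i => (x i).natAbs)

/-- the height attached to the component with the equations `F j` -/
noncomputable def hcomp {M w : ℕ} (F : Fin w → MvPolynomial (Fin M) ℤ) (d : Fin w → ℕ)
    (x : Fin M → ℤ) : ℝ :=
  Real.log ((Finset.univ.gcd fun j => eval x (F j) : ℤ) : ℝ) -
    Real.log (⨆ j, |((eval x (F j) : ℤ) : ℝ)| / (htv x : ℝ) ^ d j)

/-- the rational form of an integral polynomial -/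
noncomputable def toQ {M : ℕ} (P : MvPolynomial (Fin M) ℤ) : MvPolynomial (Fin M) ℚ :=
  map (Int.castRingHom ℚ) P

lemma aeval_toQ {M : ℕ} (P : MvPolynomial (Fin M) ℤ) (x : Fin M → ℤ) :
    aeval (fun c => (x c : ℚ)) (toQ P) = ((eval x P : ℤ) : ℚ) := by
  unfold toQ
  rw [aeval_def, eval₂_map]
  have h1 : ((algebraMap ℚ ℚ).comp (Int.castRingHom ℚ)) = Int.castRingHom ℚ :=
    RingHom.ext_int _ _
  rw [h1]
  have h2 := (eval₂_comp_left (Int.castRingHom ℚ) (RingHom.id ℤ) x P)
  have h3 : eval₂ (RingHom.id ℤ) x P = eval x P := rfl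
  rw [h3] at h2
  rw [RingHom.comp_id] at h2
  exact h2.symm

lemma toQ_pderiv {M : ℕ} (P : MvPolynomial (Fin M) ℤ) (c : Fin M) :
    pderiv c (toQ P) = toQ (pderiv c P) := pderiv_map

lemma toQ_hom {M : ℕ} {P : MvPolynomial (Fin M) ℤ} {e : ℕ} (h : P.IsHomogeneous e) :
    (toQ P).IsHomogeneous e := h.map _

lemma aeval_toQ_complex {M : ℕ} (P : MvPolynomial (Fin M) ℤ) (z : Fin M → ℂ) :
    aeval z (toQ P) = aeval z P := by
  unfold toQ
  have h := aeval_map_algebraMap (R := ℤ) (A := ℚ) (B := ℂ) z P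
  exact h

lemma outp_norm {s : ℕ} {b : Fin s → ℕ} (z : ℤ) : outp b (normalize z) = outp b z := by
  rw [← Int.abs_eq_normalize, Int.abs_eq_natAbs, outp_natAbs]

/-- **the inequality** -/
theorem gvFin (m s g N w p k : ℕ) (f : Fin g → MvPolynomial (Fin (m + 1 + s)) ℤ) (ee : Fin g → ℕ)
    (hf : ∀ j, (f j).IsHomogeneous (ee j))
    (F : Fin N → Fin w → MvPolynomial (Fin (m + 1 + s)) ℤ) (dd : Fin N → Fin w → ℕ)
    (hF : ∀ i j, (F i j).IsHomogeneous (dd i j))
    (hNC : SNC (fun j => toQ (f j)) (fun i j => toQ (F i j)) s)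
    (S0 : Fin (m + 1) → Fin (m + 1 + s)) (ex : Fin N → Fin p → ℕ) (hex : ∀ l, ∃ i, 1 ≤ ex i l)
    (Γ : Subgroup ℚˣ) (hΓ : Γ.FG) (S : Finset ℕ) (ε : ℝ) (hε : 0 < ε) :
    ∃ (G : MvPolynomial (Fin (m + 1)) ℚ) (C : ℝ), (∃ d, G.IsHomogeneous d) ∧ G ≠ 0 ∧
      ∀ M : ℝ, 1 ≤ M → ∀ (x : Fin (m + 1 + s) → ℤ) (y : Fin p → ℤ) (c : Fin N → Fin w → ℤ),
        (∀ j, eval x (f j) = 0) →
        (∀ c, IsSparse Γ k M (x c)) → (∀ i, IsSparse Γ k M (y i)) →
        (∀ i j, IsSparse Γ k M (c i j)) →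
        (∀ i j, eval x (F i j) = c i j * ∏ l, y l ^ (ex i l)) →
        (∀ i, ∃ j, eval x (F i j) ≠ 0) → Finset.univ.gcd x = 1 →
        aeval (fun i => (x (S0 i) : ℚ)) G ≠ 0 →
        ∀ A : Matrix (Fin (m + 1 + s)) (Fin (m + 1)) ℤ,
        (∀ κ : Fin (m + 1) → ℚ, (∀ c, ∑ ρ, κ ρ * (A c ρ : ℚ) = 0) → ∀ ρ, κ ρ = 0) →
        (∀ ρ j, ∑ c, A c ρ * eval x (pderiv c (f j)) = 0) →
        Real.log (ratio A) - ((m : ℝ) + 1) * Real.log (htv x) + ∑ i, hcomp (F i) (dd i) x ≤
          ∑ q ∈ ((∏ l, y l) * ∏ i, Finset.univ.gcd (c i)).natAbs.primeFactors \ S,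
            ((((∏ l, y l) * ∏ i, Finset.univ.gcd (c i)).natAbs.factorization q : ℕ) : ℝ) *
              Real.log q + ε * Real.log (htv x) + C * (1 + Real.log M) := by
  classical
  obtain ⟨s', b, hb, hbi, hΓb, hSb⟩ := exists_baseS Γ hΓ S
  obtain ⟨G, C, hGh, hG0, hmain⟩ := gvMain ncF csF hbF fwF b hb hbi m s g N w p k
    (fun j => toQ (f j)) ee (fun j => toQ_hom (hf j)) (fun i j => toQ (F i j)) dd
    (fun i j => toQ_hom (hF i j)) hNC S0 ex hex Γ hΓb ε hε
  refine ⟨G, C, hGh, hG0, fun M hM x y c hfx hxs hys hcs hFx hF0 hgcd hGx A hAli hAt => ?_⟩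
  have hne : Nonempty (Fin (m + 1 + s)) := ⟨⟨0, by omega⟩⟩
  -- the choices
  choose a ha using fun v : Option (Fin s') => Finite.exists_max fun c => av b v (x c : ℚ)
  have hH0 : ∃ c, x c ≠ 0 := by
    by_contra hno
    push Not at hno
    have h6 : Finset.univ.gcd x = 0 := Finset.gcd_eq_zero_iff.2 fun c _ => hno c
    rw [h6] at hgcd
    exact zero_ne_one hgcd
  have hHx : av b none (x (a none) : ℚ) = (htv x : ℝ) := by
    have h1 : av b none (x (a none) : ℚ) = ((x (a none)).natAbs : ℝ) := by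
      simp only [av]
      rw [Nat.cast_natAbs, Int.cast_abs]
      push_cast
      rfl
    rw [h1]
    norm_cast
    refine le_antisymm (Finset.le_sup (f := fun i => (x i).natAbs) (Finset.mem_univ _)) ?_
    refine Finset.sup_le fun i _ => ?_
    have h2 := ha none i
    simp only [av] at h2
    push_cast at h2
    have h3 : |x i| ≤ |x (a none)| := by exact_mod_cast h2
    rw [Int.abs_eq_natAbs, Int.abs_eq_natAbs] at h3
    exact_mod_cast h3
  have hHpos : 0 < (htv x : ℝ) := by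
    obtain ⟨c0, hc0⟩ := hH0
    have h1 : (x c0).natAbs ≤ htv x :=
      Finset.le_sup (f := fun i => (x i).natAbs) (Finset.mem_univ c0)
    have h2 : 0 < (x c0).natAbs := Int.natAbs_pos.2 hc0
    exact_mod_cast lt_of_lt_of_le h2 h1
  have hxav : ∀ (v : Fin s'), av b (some v) (x (a (some v)) : ℚ) = 1 := by
    intro v
    refine le_antisymm (av_int_le_one hb v _) ?_
    obtain ⟨j, h1⟩ := av_gcd_le' hb v x
    rw [hgcd] at h1
    have h2 : av b (some v) ((1 : ℤ) : ℚ) = 1 := by rw [Int.cast_one, av_one hb]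
    rw [h2] at h1
    exact h1.trans (ha _ j)
  have hxpos : ∀ v, 0 < av b v (x (a v) : ℚ) := by
    intro v
    cases v with
    | none => rw [hHx]; exact hHpos
    | some v => rw [hxav]; norm_num
  have hJex : ∀ (v : Option (Fin s')) (i : Fin N), ∃ j0, ∀ j,
      av b v ((eval x (F i j) : ℤ) : ℚ) / av b v (x (a v) : ℚ) ^ dd i j ≤
        av b v ((eval x (F i j0) : ℤ) : ℚ) / av b v (x (a v) : ℚ) ^ dd i j0 := by
    intro v i
    obtain ⟨j, _⟩ := hF0 i
    have : Nonempty (Fin w) := ⟨j⟩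
    exact Finite.exists_max fun j => av b v ((eval x (F i j) : ℤ) : ℚ) /
      av b v (x (a v) : ℚ) ^ dd i j
  choose J hJ using hJex
  have hJ0 : ∀ v i, eval x (F i (J v i)) ≠ 0 := by
    intro v i h0
    obtain ⟨j, hj⟩ := hF0 i
    have h1 := hJ v i j
    rw [h0, Int.cast_zero, av_zero hb, zero_div] at h1
    have h2 : 0 < av b v ((eval x (F i j) : ℤ) : ℚ) := av_pos hb v (by exact_mod_cast hj)
    have h3 : 0 < av b v ((eval x (F i j) : ℤ) : ℚ) / av b v (x (a v) : ℚ) ^ dd i j :=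
      div_pos h2 (pow_pos (hxpos v) _)
    linarith
  have key := hmain M hM x y c (fun j => by rw [aeval_toQ, hfx, Int.cast_zero]) hxs hys hcs
    (fun i j => by rw [aeval_toQ, hFx]) (fun i => by
      obtain ⟨j, hj⟩ := hF0 i
      exact ⟨j, by rw [aeval_toQ]; exact_mod_cast hj⟩) hgcd hGx A hAli
    (fun ρ j => by
      have h1 := hAt ρ j
      have h2 : ∀ c, (A c ρ : ℚ) * aeval (fun c => (x c : ℚ)) (pderiv c (toQ (f j))) =
          ((A c ρ * eval x (pderiv c (f j)) : ℤ) : ℚ) := by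
        intro c
        rw [toQ_pderiv, aeval_toQ]
        push_cast
        rfl
      rw [Finset.sum_congr rfl fun c _ => h2 c, ← Int.cast_sum, h1, Int.cast_zero])
    a J ha (fun v i => by rw [aeval_toQ]; exact_mod_cast hJ0 v i)
    (fun v i j => by
      rw [aeval_toQ, aeval_toQ]
      have h1 := hJ v i j
      rw [div_le_div_iff₀ (pow_pos (hxpos v) _) (pow_pos (hxpos v) _)] at h1
      exact h1)
  simp only [aeval_toQ] at key
  -- the factors
  have hy0 : ∀ l, y l ≠ 0 := by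
    intro l h0
    obtain ⟨i, hi⟩ := hex l
    obtain ⟨j, hj⟩ := hF0 i
    apply hj
    rw [hFx, Finset.prod_eq_zero (i := l) (Finset.mem_univ _) (by rw [h0, zero_pow (by omega)]),
      mul_zero]
  have hYi : ∀ i, ∏ l, y l ^ (ex i l) ≠ 0 := fun i =>
    Finset.prod_ne_zero_iff.2 fun l _ => pow_ne_zero _ (hy0 l)
  obtain ⟨γ, hγ⟩ : ∃ γ : Fin N → ℤ, γ = fun i => Finset.univ.gcd (c i) := ⟨_, rfl⟩
  have hγ0 : ∀ i, γ i ≠ 0 := by
    intro i h0
    obtain ⟨j, hj⟩ := hF0 i
    apply hj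
    rw [hγ] at h0
    rw [hFx, (Finset.gcd_eq_zero_iff.1 h0) j (Finset.mem_univ _), zero_mul]
  obtain ⟨gi, hgi⟩ : ∃ gi : Fin N → ℤ, gi = fun i => Finset.univ.gcd fun j => eval x (F i j) :=
    ⟨_, rfl⟩
  have hgi1 : ∀ i, gi i = γ i * normalize (∏ l, y l ^ (ex i l)) := by
    intro i
    rw [hgi, hγ]
    show Finset.univ.gcd (fun j => eval x (F i j)) = _
    simp only [hFx]
    exact Finset.gcd_mul_right
  have hgo : ∀ i, outp b (gi i) = outp b (γ i) + ∑ l, (ex i l : ℝ) * outp b (y l) := by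
    intro i
    have h1 : normalize (∏ l, y l ^ (ex i l)) ≠ 0 := by
      rw [Ne, normalize_eq_zero]
      exact hYi i
    rw [hgi1, outp_mul hb (hγ0 i) h1, outp_norm, outp_prod hb _ _ fun l _ => pow_ne_zero _ (hy0 l)]
    congr 1
    exact Finset.sum_congr rfl fun l _ => outp_pow hb (hy0 l) _
  have hgi0 : ∀ i, gi i ≠ 0 := by
    intro i
    rw [hgi1]
    refine mul_ne_zero (hγ0 i) ?_
    rw [Ne, normalize_eq_zero]
    exact hYi i
  have hgipos : ∀ i, 0 < gi i := by
    intro i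
    refine lt_of_le_of_ne ?_ (Ne.symm (hgi0 i))
    rw [hgi]
    exact Int.nonneg_of_normalize_eq_self (Finset.normalize_gcd (s := (Finset.univ : Finset _)))
  -- the excess
  have hP : ∑ v, Real.log (av b v ((∏ l, y l ^ (exc ex Finset.univ l) : ℤ) : ℚ)) =
      ∑ l, ((∑ i, ex i l : ℕ) : ℝ) * outp b (y l) - ∑ l, outp b (y l) := by
    have h1 : ∑ v, Real.log (av b v ((∏ l, y l ^ (exc ex Finset.univ l) : ℤ) : ℚ)) =
        outp b (∏ l, y l ^ (exc ex Finset.univ l)) := rfl
    rw [h1, outp_prod hb _ _ fun l _ => pow_ne_zero _ (hy0 l), ← Finset.sum_sub_distrib]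
    refine Finset.sum_congr rfl fun l _ => ?_
    rw [outp_pow hb (hy0 l)]
    have h2 : 1 ≤ ∑ i, ex i l := by
      obtain ⟨i, hi⟩ := hex l
      exact hi.trans (Finset.single_le_sum (f := fun i => ex i l) (fun _ _ => Nat.zero_le _)
        (Finset.mem_univ i))
    unfold exc
    rw [Nat.cast_sub h2]
    push_cast
    ring
  -- the right-hand side
  have hR : ∑ v, (((m : ℝ) + 1 - ∑ i, (dd i (J v i) : ℝ)) * Real.log (av b v (x (a v) : ℚ)) +
      ∑ i, Real.log (av b v ((eval x (F i (J v i)) : ℤ) : ℚ))) ≤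
      ((m : ℝ) + 1) * Real.log (htv x) - ∑ i, hcomp (F i) (dd i) x + ∑ i, outp b (gi i) := by
    have h1 : ∀ v, ((m : ℝ) + 1 - ∑ i, (dd i (J v i) : ℝ)) * Real.log (av b v (x (a v) : ℚ)) +
        ∑ i, Real.log (av b v ((eval x (F i (J v i)) : ℤ) : ℚ)) =
        ((m : ℝ) + 1) * Real.log (av b v (x (a v) : ℚ)) +
        ∑ i, Real.log (av b v ((eval x (F i (J v i)) : ℤ) : ℚ) /
          av b v (x (a v) : ℚ) ^ dd i (J v i)) := by
      intro v
      have h2 : ∀ i, Real.log (av b v ((eval x (F i (J v i)) : ℤ) : ℚ) /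
          av b v (x (a v) : ℚ) ^ dd i (J v i)) =
          Real.log (av b v ((eval x (F i (J v i)) : ℤ) : ℚ)) -
            dd i (J v i) * Real.log (av b v (x (a v) : ℚ)) := by
        intro i
        rw [Real.log_div (av_pos hb v (by exact_mod_cast hJ0 v i)).ne'
          (pow_pos (hxpos v) _).ne', Real.log_pow]
      rw [Finset.sum_congr rfl fun i _ => h2 i, Finset.sum_sub_distrib, ← Finset.sum_mul]
      ring
    rw [Finset.sum_congr rfl fun v _ => h1 v, Finset.sum_add_distrib, ← Finset.mul_sum]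
    have h3 : ∑ v, Real.log (av b v (x (a v) : ℚ)) = Real.log (htv x) := by
      rw [Fintype.sum_option, hHx, Finset.sum_eq_zero fun v _ => by rw [hxav, Real.log_one],
        add_zero]
    rw [h3, Finset.sum_comm, sub_add_eq_add_sub, add_sub_assoc, ← Finset.sum_sub_distrib]
    refine add_le_add le_rfl (Finset.sum_le_sum fun i _ => ?_)
    rw [Fintype.sum_option]
    -- the infinite place
    have h4 : Real.log (av b none ((eval x (F i (J none i)) : ℤ) : ℚ) /
          av b none (x (a none) : ℚ) ^ dd i (J none i)) =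
        Real.log (⨆ j, |((eval x (F i j) : ℤ) : ℝ)| / (htv x : ℝ) ^ dd i j) := by
      congr 1
      have h5 : ∀ j, av b none ((eval x (F i j) : ℤ) : ℚ) / av b none (x (a none) : ℚ) ^ dd i j =
          |((eval x (F i j) : ℤ) : ℝ)| / (htv x : ℝ) ^ dd i j := by
        intro j
        rw [hHx]
        congr 1
      have : Nonempty (Fin w) := ⟨J none i⟩
      refine le_antisymm ?_ ?_
      · rw [h5]
        exact le_ciSup (f := fun j => |((eval x (F i j) : ℤ) : ℝ)| / (htv x : ℝ) ^ dd i j)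
          (Set.finite_range _).bddAbove (J none i)
      · refine ciSup_le fun j => ?_
        rw [← h5 j]
        exact hJ none i j
    have h6 : ∀ v : Fin s', Real.log (av b (some v) ((eval x (F i (J (some v) i)) : ℤ) : ℚ) /
          av b (some v) (x (a (some v)) : ℚ) ^ dd i (J (some v) i)) ≤
        Real.log (av b (some v) (gi i : ℚ)) := by
      intro v
      rw [hxav, one_pow, div_one]
      refine Real.log_le_log (av_pos hb _ (by exact_mod_cast hJ0 (some v) i)) ?_
      have h7 : gi i ∣ eval x (F i (J (some v) i)) := by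
        rw [hgi]
        exact Finset.gcd_dvd (f := fun j => eval x (F i j)) (Finset.mem_univ _)
      obtain ⟨u, hu⟩ := h7
      rw [hu, Int.cast_mul, av_mul hb]
      exact mul_le_of_le_one_right (av_nonneg hb _ _) (av_int_le_one hb v u)
    have h8 := Finset.sum_le_sum fun v (_ : v ∈ (Finset.univ : Finset (Fin s'))) => h6 v
    have h9 : outp b (gi i) = Real.log (gi i : ℝ) + ∑ v : Fin s', Real.log (av b (some v) (gi i : ℚ)) := by
      unfold outp
      rw [Fintype.sum_option]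
      congr 1
      congr 1
      simp only [av]
      push_cast
      exact abs_of_pos (by exact_mod_cast hgipos i)
    have h10 : hcomp (F i) (dd i) x = Real.log (gi i : ℝ) -
        Real.log (⨆ j, |((eval x (F i j) : ℤ) : ℝ)| / (htv x : ℝ) ^ dd i j) := by
      rw [hgi]
      rfl
    rw [h4, h9, h10]
    linarith
  have hW0 : (∏ l, y l) * ∏ i, γ i ≠ 0 := mul_ne_zero
    (Finset.prod_ne_zero_iff.2 fun l _ => hy0 l) (Finset.prod_ne_zero_iff.2 fun i _ => hγ0 i)
  have hWo : outp b ((∏ l, y l) * ∏ i, γ i) = ∑ l, outp b (y l) + ∑ i, outp b (γ i) := by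
    rw [outp_mul hb (Finset.prod_ne_zero_iff.2 fun l _ => hy0 l)
      (Finset.prod_ne_zero_iff.2 fun i _ => hγ0 i), outp_prod hb _ _ fun l _ => hy0 l,
      outp_prod hb _ _ fun i _ => hγ0 i]
  have hWle := outp_le hb hbi hW0 S hSb
  have hsum : ∑ i, outp b (gi i) = ∑ i, outp b (γ i) +
      ∑ l, ((∑ i, ex i l : ℕ) : ℝ) * outp b (y l) := by
    rw [Finset.sum_congr rfl fun i _ => hgo i, Finset.sum_add_distrib, Finset.sum_comm]
    congr 1
    refine Finset.sum_congr rfl fun l _ => ?_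
    rw [← Finset.sum_mul]
    push_cast
    rfl
  have hHabs : Real.log |(x (a none) : ℝ)| = Real.log (htv x) := by
    rw [← hHx]
    simp only [av]
    push_cast
    rfl
  rw [hHabs, hP] at key
  rw [hγ] at hWle hWo hsum
  simp only at hWle hWo hsum
  linarith

end Pool.Agent.Y731.GV
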